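import Mathlib
set_option autoImplicit false

/-!
# Biased measures on the subsets of a finite set and shattering
-/

namespace Pool.Agent.H454R3

open Finset

variable {α : Type*} [DecidableEq α]

set_option linter.unusedSectionVars false

/-- the expectation of `f` over a random subset of `N` which contains each element
independently with probability `p` -/
noncomputable def Ex (p : ℝ) (N : Finset α) (f : Finset α → ℝ) : ℝ :=
  ∑ S ∈ N.powerset, p ^ S.card * (1 - p) ^ (N.card - S.card) * f S

lemma Ex_empty (p : ℝ) (f : Finset α → ℝ) : Ex p ∅ f = f ∅ := by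
  simp [Ex]

lemma Ex_insert {x : α} {N : Finset α} (hx : x ∉ N) (p : ℝ) (f : Finset α → ℝ) :
    Ex p (insert x N) f = (1 - p) * Ex p N f + p * Ex p N (fun S => f (insert x S)) := by
  unfold Ex
  rw [sum_powerset_insert hx, mul_sum, mul_sum]
  congr 1
  · refine sum_congr rfl fun S hS => ?_
    have h1 : S.card ≤ N.card := card_le_card (mem_powerset.1 hS)
    rw [card_insert_of_notMem hx, show N.card + 1 - S.card = (N.card - S.card) + 1 by omega]
    ring
  · refine sum_congr rfl fun S hS => ?_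
    have h2 : x ∉ S := fun h => hx (mem_powerset.1 hS h)
    rw [card_insert_of_notMem hx, card_insert_of_notMem h2,
      show N.card + 1 - (S.card + 1) = N.card - S.card by omega]
    ring

lemma Ex_mono {p : ℝ} (h0 : 0 ≤ p) (h1 : p ≤ 1) {N : Finset α} {f g : Finset α → ℝ}
    (h : ∀ S ⊆ N, f S ≤ g S) : Ex p N f ≤ Ex p N g := by
  unfold Ex
  refine sum_le_sum fun S hS => ?_
  have := h S (mem_powerset.1 hS)
  have h2 : 0 ≤ p ^ S.card * (1 - p) ^ (N.card - S.card) := by
    have : 0 ≤ 1 - p := by linarith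
    positivity
  exact mul_le_mul_of_nonneg_left this h2

lemma Ex_congr {p : ℝ} {N : Finset α} {f g : Finset α → ℝ}
    (h : ∀ S ⊆ N, f S = g S) : Ex p N f = Ex p N g := by
  unfold Ex
  exact sum_congr rfl fun S hS => by rw [h S (mem_powerset.1 hS)]

lemma Ex_add (p : ℝ) (N : Finset α) (f g : Finset α → ℝ) :
    Ex p N (fun S => f S + g S) = Ex p N f + Ex p N g := by
  unfold Ex
  rw [← sum_add_distrib]
  exact sum_congr rfl fun S _ => by ring

lemma Ex_sum {ι : Type*} (p : ℝ) (N : Finset α) (s : Finset ι) (f : ι → Finset α → ℝ) :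
    Ex p N (fun S => ∑ i ∈ s, f i S) = ∑ i ∈ s, Ex p N (f i) := by
  unfold Ex
  rw [sum_comm]
  exact sum_congr rfl fun S _ => by rw [mul_sum]

lemma Ex_const (p : ℝ) (N : Finset α) (c : ℝ) : Ex p N (fun _ => c) = c := by
  induction N using Finset.induction_on with
  | empty => rw [Ex_empty]
  | insert x N hx ih => rw [Ex_insert hx, ih]; ring

lemma Ex_nonneg {p : ℝ} (h0 : 0 ≤ p) (h1 : p ≤ 1) {N : Finset α} {f : Finset α → ℝ}
    (h : ∀ S ⊆ N, 0 ≤ f S) : 0 ≤ Ex p N f := by
  have := Ex_mono h0 h1 (f := fun _ => (0 : ℝ)) h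
  rwa [Ex_const] at this

/-- some subset attains at least the expectation -/
lemma exists_ge_Ex {p : ℝ} (h0 : 0 ≤ p) (h1 : p ≤ 1) (N : Finset α) (f : Finset α → ℝ) :
    ∃ S ⊆ N, Ex p N f ≤ f S := by
  induction N using Finset.induction_on generalizing f with
  | empty => exact ⟨∅, subset_rfl, by rw [Ex_empty]⟩
  | insert x N hx ih =>
    obtain ⟨S, hS, h2⟩ := ih f
    obtain ⟨T, hT, h3⟩ := ih (fun S => f (insert x S))
    rw [Ex_insert hx]
    by_cases h : f S ≤ f (insert x T)
    · refine ⟨insert x T, insert_subset_insert x hT, ?_⟩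
      have : (1 - p) * Ex p N f ≤ (1 - p) * f (insert x T) :=
        mul_le_mul_of_nonneg_left (h2.trans h) (by linarith)
      have h4 : p * Ex p N (fun S => f (insert x S)) ≤ p * f (insert x T) :=
        mul_le_mul_of_nonneg_left h3 h0
      linarith
    · refine ⟨S, hS.trans (subset_insert x N), ?_⟩
      push Not at h
      have : (1 - p) * Ex p N f ≤ (1 - p) * f S :=
        mul_le_mul_of_nonneg_left h2 (by linarith)
      have h4 : p * Ex p N (fun S => f (insert x S)) ≤ p * f S :=
        mul_le_mul_of_nonneg_left (h3.trans h.le) h0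
      linarith

open Classical in
/-- the probability of `P` -/
noncomputable def Pr (p : ℝ) (N : Finset α) (P : Finset α → Prop) : ℝ :=
  Ex p N (fun S => if P S then 1 else 0)

lemma Pr_insert {x : α} {N : Finset α} (hx : x ∉ N) (p : ℝ) (P : Finset α → Prop) :
    Pr p (insert x N) P = (1 - p) * Pr p N P + p * Pr p N (fun S => P (insert x S)) := by
  unfold Pr
  rw [Ex_insert hx]

lemma Pr_mono {p : ℝ} (h0 : 0 ≤ p) (h1 : p ≤ 1) {N : Finset α} {P Q : Finset α → Prop}
    (h : ∀ S ⊆ N, P S → Q S) : Pr p N P ≤ Pr p N Q := by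
  classical
  unfold Pr
  refine Ex_mono h0 h1 fun S hS => ?_
  have := h S hS
  by_cases hP : P S
  · simp [hP, this hP]
  · simp only [hP, if_false]
    split_ifs <;> norm_num

lemma Pr_nonneg {p : ℝ} (h0 : 0 ≤ p) (h1 : p ≤ 1) (N : Finset α) (P : Finset α → Prop) :
    0 ≤ Pr p N P := by
  classical
  unfold Pr
  exact Ex_nonneg h0 h1 fun S _ => by split_ifs <;> norm_num

lemma Pr_le_one {p : ℝ} (h0 : 0 ≤ p) (h1 : p ≤ 1) (N : Finset α) (P : Finset α → Prop) :
    Pr p N P ≤ 1 := by
  classical
  unfold Pr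
  calc _ ≤ Ex p N (fun _ => (1 : ℝ)) := Ex_mono h0 h1 fun S _ => by split_ifs <;> norm_num
    _ = 1 := Ex_const p N 1

lemma Pr_or_add_and (p : ℝ) (N : Finset α) (P Q : Finset α → Prop) :
    Pr p N (fun S => P S ∨ Q S) + Pr p N (fun S => P S ∧ Q S) = Pr p N P + Pr p N Q := by
  classical
  unfold Pr
  rw [← Ex_add, ← Ex_add]
  refine Ex_congr fun S _ => ?_
  by_cases hP : P S <;> by_cases hQ : Q S <;> simp [hP, hQ]

/-- the family `F` of subsets of `N` shatters `A` -/
def Shat (N : Finset α) (F : Finset α → Prop) (A : Finset α) : Prop :=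
  ∀ D ⊆ A, ∃ S ⊆ N, F S ∧ S ∩ A = D

lemma Shat.mono {N : Finset α} {F : Finset α → Prop} {A B : Finset α} (h : A ⊆ B)
    (hB : Shat N F B) : Shat N F A := by
  intro D hD
  obtain ⟨S, hS, hF, hSB⟩ := hB D (hD.trans h)
  refine ⟨S, hS, hF, ?_⟩
  ext y
  constructor
  · intro hy
    rw [← hSB, mem_inter]
    exact ⟨(mem_inter.1 hy).1, h (mem_inter.1 hy).2⟩
  · intro hy
    rw [mem_inter]
    rw [← hSB] at hy
    refine ⟨(mem_inter.1 hy).1, ?_⟩
    rw [hSB] at hy
    exact hD hy

/-- **Biased Sauer–Shelah–Pajor inequality.** -/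
theorem pajor {p : ℝ} (h0 : 0 ≤ p) (h1 : p ≤ 1 / 2) (N : Finset α) (F : Finset α → Prop) :
    Pr p N F ≤ Pr p N (Shat N F) := by
  induction N using Finset.induction_on generalizing F with
  | empty =>
    have : ∀ S ⊆ (∅ : Finset α), F S → Shat ∅ F S := by
      intro S hS hF D hD
      have h2 : S = ∅ := subset_empty.1 hS
      subst h2
      exact ⟨∅, subset_rfl, hF, by rw [subset_empty.1 hD]; simp⟩
    exact Pr_mono h0 (by linarith) this
  | insert x N hx ih =>
    have hp1 : p ≤ 1 := by linarith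
    rw [Pr_insert hx, Pr_insert hx]
    set F₁ : Finset α → Prop := fun S => F (insert x S) with hF₁
    have e1 : Pr p N (fun A => Shat N F A ∨ Shat N F₁ A) ≤ Pr p N (Shat (insert x N) F) := by
      refine Pr_mono h0 hp1 fun A hA h => ?_
      rcases h with h | h
      · intro D hD
        obtain ⟨S, hS, hF, hSA⟩ := h D hD
        exact ⟨S, hS.trans (subset_insert x N), hF, hSA⟩
      · intro D hD
        obtain ⟨S, hS, hF, hSA⟩ := h D hD
        refine ⟨insert x S, insert_subset_insert x hS, hF, ?_⟩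
        rw [insert_inter_of_notMem fun h => hx (hA h), hSA]
    have e2 : Pr p N (fun A => Shat N F A ∧ Shat N F₁ A) ≤
        Pr p N (fun A => Shat (insert x N) F (insert x A)) := by
      refine Pr_mono h0 hp1 fun A hA h => ?_
      intro D hD
      have hxA : x ∉ A := fun h => hx (hA h)
      by_cases hxD : x ∈ D
      · obtain ⟨S, hS, hF, hSA⟩ := h.2 (D.erase x) (by
          intro y hy
          have := hD (mem_of_mem_erase hy)
          rcases mem_insert.1 this with h | h
          · exact absurd h (ne_of_mem_erase hy)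
          · exact h)
        refine ⟨insert x S, insert_subset_insert x hS, hF, ?_⟩
        rw [← insert_inter_distrib, hSA, insert_erase hxD]
      · obtain ⟨S, hS, hF, hSA⟩ := h.1 D (by
          intro y hy
          rcases mem_insert.1 (hD hy) with h | h
          · rw [h] at hy; exact absurd hy hxD
          · exact h)
        refine ⟨S, hS.trans (subset_insert x N), hF, ?_⟩
        rw [inter_insert_of_notMem fun h => hx (hS h), hSA]
    have e3 := Pr_or_add_and p N (Shat N F) (Shat N F₁)
    have e4 : Pr p N (Shat N F) ≤ Pr p N (fun A => Shat N F A ∨ Shat N F₁ A) :=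
      Pr_mono h0 hp1 fun A _ h => Or.inl h
    have e5 := ih F
    have e6 := ih F₁
    have e7 : (1 - 2 * p) * Pr p N (Shat N F) ≤
        (1 - 2 * p) * Pr p N (fun A => Shat N F A ∨ Shat N F₁ A) :=
      mul_le_mul_of_nonneg_left e4 (by linarith)
    have e8 : (1 - p) * Pr p N (fun A => Shat N F A ∨ Shat N F₁ A) ≤
        (1 - p) * Pr p N (Shat (insert x N) F) :=
      mul_le_mul_of_nonneg_left e1 (by linarith)
    have e9 : p * Pr p N (fun A => Shat N F A ∧ Shat N F₁ A) ≤
        p * Pr p N (fun A => Shat (insert x N) F (insert x A)) :=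
      mul_le_mul_of_nonneg_left e2 h0
    have e10 : (1 - p) * Pr p N F ≤ (1 - p) * Pr p N (Shat N F) :=
      mul_le_mul_of_nonneg_left e5 (by linarith)
    have e11 : p * Pr p N F₁ ≤ p * Pr p N (Shat N F₁) := mul_le_mul_of_nonneg_left e6 h0
    have e12 : p * (Pr p N (fun A => Shat N F A ∨ Shat N F₁ A) +
        Pr p N (fun A => Shat N F A ∧ Shat N F₁ A)) = p * (Pr p N (Shat N F) + Pr p N (Shat N F₁)) := by
      rw [e3]
    linarith

lemma bern {a b p : ℝ} {k : ℕ} (hk : 1 ≤ k) (ha : 0 ≤ a) (hb : 0 ≤ b) (hba : b ≤ a)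
    (h0 : 0 ≤ p) (h1 : p ≤ 1) :
    (1 - p) * a ^ k + p * b ^ k ≤ ((1 - p / k) * a + p / k * b) ^ k := by
  have hk' : (0 : ℝ) < k := by exact_mod_cast hk
  rcases ha.eq_or_lt with h | h
  · subst h
    have : b = 0 := le_antisymm hba hb
    subst this
    simp [show k ≠ 0 by omega]
  · set c := b / a with hc
    have hbc : b = c * a := by rw [hc]; field_simp
    have hc0 : 0 ≤ c := div_nonneg hb ha
    have hc1 : c ≤ 1 := by rw [hc, div_le_one h]; exact hba
    have h2 : 1 + (k : ℝ) * (-(p / k * (1 - c))) ≤ (1 + -(p / k * (1 - c))) ^ k := by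
      apply one_add_mul_le_pow
      have h3 : p / k * (1 - c) ≤ 1 * 1 := by
        apply mul_le_mul _ (by linarith) (by linarith) (by norm_num)
        rw [div_le_one hk']
        have : (1 : ℝ) ≤ k := by exact_mod_cast hk
        linarith
      linarith
    have h40 : (k : ℝ) * (p / k) = p := by field_simp
    have h4 : 1 + (k : ℝ) * (-(p / k * (1 - c))) = 1 - p * (1 - c) := by
      linear_combination (-(1 - c)) * h40
    rw [h4] at h2
    have h5 : c ^ k ≤ c := by
      calc c ^ k ≤ c ^ 1 := pow_le_pow_of_le_one hc0 hc1 hk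
        _ = c := pow_one c
    have h6 : (1 - p / k) * a + p / k * b = (1 + -(p / k * (1 - c))) * a := by
      rw [hbc]; ring
    rw [h6, mul_pow, hbc, mul_pow]
    have h7 : 0 ≤ a ^ k := by positivity
    calc (1 - p) * a ^ k + p * (c ^ k * a ^ k) = (1 - p + p * c ^ k) * a ^ k := by ring
      _ ≤ (1 - p * (1 - c)) * a ^ k := by
          apply mul_le_mul_of_nonneg_right _ h7
          have : p * c ^ k ≤ p * c := mul_le_mul_of_nonneg_left h5 h0
          linarith
      _ ≤ _ := mul_le_mul_of_nonneg_right h2 h7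

/-- decreasing the bias increases the probability of a decreasing event -/
theorem Pr_pow_ge {p : ℝ} (h0 : 0 ≤ p) (h1 : p ≤ 1) {k : ℕ} (hk : 1 ≤ k) (N : Finset α)
    (P : Finset α → Prop) (hP : ∀ A B : Finset α, A ⊆ B → P B → P A) :
    Pr p N P ≤ Pr (p / k) N P ^ k := by
  have hk' : (0 : ℝ) < k := by exact_mod_cast hk
  have hq0 : 0 ≤ p / k := by positivity
  have hq1 : p / k ≤ 1 := by
    rw [div_le_one hk']
    have : (1 : ℝ) ≤ k := by exact_mod_cast hk
    linarith
  induction N using Finset.induction_on generalizing P with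
  | empty =>
    unfold Pr
    rw [Ex_empty, Ex_empty]
    split_ifs
    · simp
    · simp [show k ≠ 0 by omega]
  | insert x N hx ih =>
    rw [Pr_insert hx, Pr_insert hx]
    have hP1 : ∀ A B : Finset α, A ⊆ B → P (insert x B) → P (insert x A) :=
      fun A B h => hP _ _ (insert_subset_insert x h)
    have e1 := ih P hP
    have e2 := ih (fun S => P (insert x S)) hP1
    have e3 : Pr (p / k) N (fun S => P (insert x S)) ≤ Pr (p / k) N P :=
      Pr_mono hq0 hq1 fun S _ h => hP _ _ (subset_insert x S) h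
    have e4 := bern hk (Pr_nonneg hq0 hq1 N P) (Pr_nonneg hq0 hq1 N (fun S => P (insert x S))) e3
      h0 h1
    refine le_trans ?_ e4
    have e5 : (1 - p) * Pr p N P ≤ (1 - p) * Pr (p / k) N P ^ k :=
      mul_le_mul_of_nonneg_left e1 (by linarith)
    have e6 : p * Pr p N (fun S => P (insert x S)) ≤
        p * Pr (p / k) N (fun S => P (insert x S)) ^ k := mul_le_mul_of_nonneg_left e2 h0
    linarith

/-- A dense family shatters most sparse random sets. -/
theorem shat_half {p : ℝ} (h0 : 0 ≤ p) (h1 : p ≤ 1 / 2) {k : ℕ} (hk : 1 ≤ k) (N : Finset α)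
    (F : Finset α → Prop) (hF : (1 / 2 : ℝ) ^ k ≤ Pr p N F) :
    1 / 2 ≤ Pr (p / k) N (Shat N F) := by
  have h2 := (hF.trans (pajor h0 h1 N F)).trans
    (Pr_pow_ge h0 (by linarith) hk N (Shat N F) fun A B h hB => hB.mono h)
  by_contra h
  push Not at h
  have hk' : (0 : ℝ) < k := by exact_mod_cast hk
  have hq0 : 0 ≤ p / k := by positivity
  have hq1 : p / k ≤ 1 := by
    rw [div_le_one hk']
    have : (1 : ℝ) ≤ k := by exact_mod_cast hk
    linarith
  have h3 := pow_lt_pow_left₀ h (Pr_nonneg hq0 hq1 N (Shat N F)) (n := k) (by omega)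
  linarith

end Pool.Agent.H454R3
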