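import Mathlib
set_option autoImplicit false

/-!
# Abstract objective functions on cubes: definitions
-/

namespace Pool.Agent.H454R3

open Finset

/-- the neighbour of the vertex `x` of the `n`-cube in direction `i` -/
def flip {n : ℕ} (x : Fin n → Bool) (i : Fin n) : Fin n → Bool := Function.update x i (!x i)

/-- the set of improving directions at the vertex `x` -/
def improving {n : ℕ} (f : (Fin n → Bool) → ℕ) (x : Fin n → Bool) : Finset (Fin n) :=
  univ.filter fun i => f x < f (flip x i)

/-- every face `{y : y = x outside U}` with `U ≠ ∅` has a direction `i ∈ U` all of whose edges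
are oriented in the same way -/
def Combed {n : ℕ} (f : (Fin n → Bool) → ℕ) : Prop :=
  ∀ (U : Finset (Fin n)) (x : Fin n → Bool), U.Nonempty → ∃ i ∈ U, ∃ b : Bool,
    ∀ y : Fin n → Bool, (∀ j, j ∉ U → y j = x j) → (i ∈ improving f y ↔ y i = b)

/-- `T x` is the expected number of steps from `x` to the maximum of the rule which always
chooses a uniformly random improving direction -/
def RandomEdge {n : ℕ} (f : (Fin n → Bool) → ℕ) (T : (Fin n → Bool) → ℝ) : Prop :=
  ∀ x, (improving f x = ∅ → T x = 0) ∧ ((improving f x).Nonempty →
    T x = 1 + (∑ i ∈ improving f x, T (flip x i)) / (improving f x).card)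

end Pool.Agent.H454R3
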