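import Pool.Agent.H454R3.Defs
set_option autoImplicit false

/-!
# Triangular abstract objective functions, consequences of combedness
-/

namespace Pool.Agent.H454R3

open Finset

variable {n : ℕ}

lemma flip_self (x : Fin n → Bool) (i : Fin n) : flip x i i = !x i := by
  simp [flip]

lemma flip_ne (x : Fin n → Bool) {i j : Fin n} (h : j ≠ i) : flip x i j = x j := by
  simp [flip, Function.update_of_ne h]

lemma flip_ne_self (x : Fin n → Bool) (i : Fin n) : flip x i ≠ x := by
  intro h
  have := congrFun h i
  rw [flip_self] at this
  cases hx : x i <;> rw [hx] at this <;> exact Bool.noConfusion this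

/-- the objective function with most significant coordinate first -/
def val (c : Fin n → (Fin n → Bool) → Bool) : List (Fin n) → (Fin n → Bool) → ℕ
  | [], _ => 0
  | z :: L, u => (if u z = c z u then 0 else 1) * 2 ^ L.length + val c L u

/-- the orientation of a direction only depends on the earlier coordinates -/
def Tri (c : Fin n → (Fin n → Bool) → Bool) : List (Fin n) → Prop
  | [] => True
  | z :: L => (∀ u u' : Fin n → Bool, (∀ i, i ∉ z :: L → u i = u' i) → c z u = c z u') ∧ Tri c L

lemma val_lt (c : Fin n → (Fin n → Bool) → Bool) (L : List (Fin n)) (u : Fin n → Bool) :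
    val c L u < 2 ^ L.length := by
  induction L with
  | nil => simp [val]
  | cons z L ih =>
    rw [val, List.length_cons, pow_succ]
    split_ifs <;> omega

lemma val_flip (c : Fin n → (Fin n → Bool) → Bool) (L : List (Fin n)) (hL : L.Nodup)
    (hT : Tri c L) (u : Fin n → Bool) {i : Fin n} (hi : i ∈ L) :
    (val c L u < val c L (flip u i) ↔ u i = c i u) ∧ val c L u ≠ val c L (flip u i) := by
  induction L with
  | nil => simp at hi
  | cons z L ih =>
    have hz : c z (flip u i) = c z u := by
      apply hT.1
      intro j hj
      exact flip_ne u fun h => hj (h ▸ hi)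
    have h1 := val_lt c L u
    have h2 := val_lt c L (flip u i)
    rcases List.mem_cons.1 hi with h | h
    · subst h
      rw [val, val, hz, flip_self]
      by_cases h3 : u i = c i u
      · rw [if_pos h3]
        have h4 : ¬ (!u i) = c i u := by rw [h3]; simp
        rw [if_neg h4]
        constructor
        · exact ⟨fun _ => h3, fun _ => by omega⟩
        · omega
      · rw [if_neg h3]
        have h4 : (!u i) = c i u := by
          revert h3
          cases u i <;> cases c i u <;> simp
        rw [if_pos h4]
        constructor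
        · exact ⟨fun h5 => by omega, fun h5 => absurd h5 h3⟩
        · omega
    · have hne : z ≠ i := by
        rintro rfl
        exact (List.nodup_cons.1 hL).1 h
      have h5 := ih (List.nodup_cons.1 hL).2 hT.2 h
      rw [val, val, hz, flip_ne u hne]
      constructor
      · rw [← h5.1]
        omega
      · have := h5.2
        omega

lemma val_inj (c : Fin n → (Fin n → Bool) → Bool) (L : List (Fin n))
    (hT : Tri c L) (u u' : Fin n → Bool) (h : ∀ i, i ∉ L → u i = u' i)
    (hv : val c L u = val c L u') : ∀ i, u i = u' i := by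
  induction L with
  | nil => exact fun i => h i (by simp)
  | cons z L ih =>
    have h1 := val_lt c L u
    have h2 := val_lt c L u'
    have hc := hT.1 u u' h
    rw [val, val, hc] at hv
    have hz : u z = u' z := by
      by_cases h3 : u z = c z u' <;> by_cases h4 : u' z = c z u'
      · rw [h3, h4]
      · rw [if_pos h3, if_neg h4] at hv; omega
      · rw [if_neg h3, if_pos h4] at hv; omega
      · revert h3 h4
        cases u z <;> cases u' z <;> cases c z u' <;> simp
    apply ih hT.2
    · intro i hi
      by_cases hiz : i = z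
      · rw [hiz, hz]
      · exact h i (by simp [hiz, hi])
    · rw [hz] at hv
      omega

lemma mem_improving (f : (Fin n → Bool) → ℕ) (x : Fin n → Bool) (i : Fin n) :
    i ∈ improving f x ↔ f x < f (flip x i) := by
  simp [improving]

/-- the first member of `L` in `U` has constant orientation on the faces in direction `U` -/
lemma tri_combed (c : Fin n → (Fin n → Bool) → Bool) (L : List (Fin n))
    (hT : Tri c L) (U : Finset (Fin n)) (x : Fin n → Bool)
    (h : ∃ i ∈ U, i ∈ L) (hU : ∀ j ∈ U, j ∈ L) : ∃ i ∈ U, i ∈ L ∧
    ∀ y : Fin n → Bool, (∀ j, j ∉ U → y j = x j) → c i y = c i x := by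
  induction L with
  | nil => obtain ⟨i, _, hi⟩ := h; simp at hi
  | cons z L ih =>
    by_cases hz : z ∈ U
    · refine ⟨z, hz, List.mem_cons_self, fun y hy => hT.1 y x fun i hi => hy i fun h => hi (hU i h)⟩
    · have hU' : ∀ j ∈ U, j ∈ L := by
        intro j hj
        rcases List.mem_cons.1 (hU j hj) with h1 | h1
        · rw [h1] at hj; exact absurd hj hz
        · exact h1
      obtain ⟨i, hi, _⟩ := h
      obtain ⟨j, hj, hjL, h2⟩ := ih hT.2 ⟨i, hi, hU' i hi⟩ hU'
      exact ⟨j, hj, List.mem_cons_of_mem z hjL, h2⟩

/-- Triangular objective functions -/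
theorem exists_tri (c : Fin n → (Fin n → Bool) → Bool) (L : List (Fin n)) (hL : L.Nodup)
    (hall : ∀ i, i ∈ L) (hT : Tri c L) :
    ∃ f : (Fin n → Bool) → ℕ, Function.Injective f ∧ Combed f ∧
      ∀ u i, i ∈ improving f u ↔ u i = c i u := by
  have h1 : ∀ u i, i ∈ improving (val c L) u ↔ u i = c i u := by
    intro u i
    rw [mem_improving]
    exact (val_flip c L hL hT u (hall i)).1
  refine ⟨val c L, ?_, ?_, h1⟩
  · intro u u' h
    funext i
    exact val_inj c L hT u u' (fun i hi => absurd (hall i) hi) h i
  · intro U x hU
    obtain ⟨i, hi⟩ := hU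
    obtain ⟨j, hj, _, h2⟩ := tri_combed c L hT U x ⟨i, hi, hall i⟩ fun j _ => hall j
    exact ⟨j, hj, c j x, fun y hy => by rw [h1, h2 y hy]⟩

/-- unique local maximum on each face -/
lemma Combed.unique {f : (Fin n → Bool) → ℕ} (hf : Combed f) (U : Finset (Fin n))
    (x : Fin n → Bool) : ∃! y : Fin n → Bool,
      (∀ i, i ∉ U → y i = x i) ∧ ∀ i ∈ U, i ∉ improving f y := by
  induction hn : U.card generalizing U x with
  | zero =>
    rw [card_eq_zero] at hn
    subst hn
    exact ⟨x, ⟨fun _ _ => rfl, by simp⟩, fun y hy => funext fun i => hy.1 i (by simp)⟩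
  | succ m ih =>
    have hU : U.Nonempty := by rw [← card_pos]; omega
    obtain ⟨i, hi, b, hb⟩ := hf U x hU
    obtain ⟨y, ⟨h1, h2⟩, h3⟩ := ih (U.erase i) (Function.update x i (!b))
      (by rw [card_erase_of_mem hi]; omega)
    have hyi : y i = !b := by
      rw [h1 i (notMem_erase i U)]; simp
    have hyU : ∀ j, j ∉ U → y j = x j := by
      intro j hj
      have hji : j ≠ i := fun h => hj (h ▸ hi)
      rw [h1 j fun h => hj (mem_of_mem_erase h), Function.update_of_ne hji]
    refine ⟨y, ⟨hyU, ?_⟩, ?_⟩
    · intro j hj
      by_cases hji : j = i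
      · subst hji
        rw [hb y hyU, hyi]
        simp
      · exact h2 j (mem_erase.2 ⟨hji, hj⟩)
    · rintro z ⟨hz1, hz2⟩
      have hzi : z i = !b := by
        have := hz2 i hi
        rw [hb z hz1] at this
        revert this
        cases z i <;> cases b <;> simp
      apply h3
      refine ⟨?_, fun j hj => hz2 j (mem_of_mem_erase hj)⟩
      intro j hj
      by_cases hji : j = i
      · subst hji
        rw [hzi]; simp
      · rw [Function.update_of_ne hji]
        exact hz1 j fun h => hj (mem_erase.2 ⟨hji, h⟩)

lemma not_mem_improving {f : (Fin n → Bool) → ℕ} (hf : Function.Injective f)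
    (x : Fin n → Bool) (i : Fin n) : i ∉ improving f x ↔ f (flip x i) < f x := by
  rw [mem_improving]
  have : f x ≠ f (flip x i) := fun h => flip_ne_self x i (hf h).symm
  omega

/-- short increasing paths -/
lemma Combed.short {f : (Fin n → Bool) → ℕ} (hf : Combed f) (t : Fin n → Bool)
    (ht : improving f t = ∅) (x : Fin n → Bool) :
    ∃ w : ℕ → (Fin n → Bool), w 0 = x ∧
      (∀ k < (univ.filter fun i => x i ≠ t i).card,
        ∃ i ∈ improving f (w k), w (k + 1) = flip (w k) i) ∧
      improving f (w (univ.filter fun i => x i ≠ t i).card) = ∅ := by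
  induction hn : (univ.filter fun i => x i ≠ t i).card generalizing x with
  | zero =>
    rw [card_eq_zero] at hn
    have hx : x = t := by
      funext i
      by_contra h
      have : i ∈ (univ.filter fun i => x i ≠ t i) := by simp [h]
      rw [hn] at this
      simp at this
    exact ⟨fun _ => x, rfl, by simp, by rw [hx]; exact ht⟩
  | succ m ih =>
    set U := univ.filter fun i => x i ≠ t i with hU
    have hne : U.Nonempty := by rw [← card_pos]; omega
    obtain ⟨y, _, hy⟩ := hf.unique U x
    have h1 := hy t ⟨fun i hi => by
      by_contra h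
      exact hi (by rw [hU]; simp only [mem_filter, mem_univ, true_and]; exact fun h' => h h'.symm),
      by rw [ht]; simp⟩
    have h2 : ¬ ∀ i ∈ U, i ∉ improving f x := by
      intro h3
      have h4 := hy x ⟨fun _ _ => rfl, h3⟩
      obtain ⟨i, hi⟩ := hne
      rw [hU] at hi
      exact (mem_filter.1 hi).2 (by rw [h4, h1])
    push Not at h2
    obtain ⟨i, hi, hi2⟩ := h2
    have h5 : (univ.filter fun j => flip x i j ≠ t j) = U.erase i := by
      ext j
      rw [hU]
      simp only [mem_filter, mem_univ, true_and, mem_erase]
      have hxi : x i ≠ t i := by rw [hU] at hi; exact (mem_filter.1 hi).2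
      by_cases hji : j = i
      · subst hji
        rw [flip_self]
        revert hxi
        cases x j <;> cases t j <;> simp
      · rw [flip_ne x hji]
        simp [hji]
    obtain ⟨w, hw0, hw1, hw2⟩ := ih (flip x i) (by rw [h5, card_erase_of_mem hi]; omega)
    refine ⟨fun k => Nat.casesOn k x w, rfl, ?_, hw2⟩
    intro k hk
    cases k with
    | zero => exact ⟨i, hi2, hw0⟩
    | succ k => exact hw1 k (by omega)

/-- bound for random edge -/
lemma Combed.randomEdge {f : (Fin n → Bool) → ℕ} (hf : Combed f) {T : (Fin n → Bool) → ℝ}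
    (hT : RandomEdge f T) (U : Finset (Fin n)) (x : Fin n → Bool)
    (hU : ∀ y : Fin n → Bool, (∀ j, j ∉ U → y j = x j) → improving f y ⊆ U) :
    ∀ y : Fin n → Bool, (∀ j, j ∉ U → y j = x j) → T y ≤ (U.card : ℝ) * (U.card + 1) / 2 := by
  induction hn : U.card generalizing U x with
  | zero =>
    rw [card_eq_zero] at hn
    subst hn
    intro y hy
    have h1 : improving f y = ∅ := subset_empty.1 (hU y hy)
    rw [(hT y).1 h1]
    simp
  | succ m ih =>
    have hne : U.Nonempty := by rw [← card_pos]; omega
    obtain ⟨i, hi, b, hb⟩ := hf U x hne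
    -- the good side
    have good : ∀ y : Fin n → Bool, (∀ j, j ∉ U → y j = x j) → y i = (!b) →
        T y ≤ (m : ℝ) * (m + 1) / 2 := by
      intro y hy hyi
      refine ih (U.erase i) (Function.update x i (!b)) ?_ (by rw [card_erase_of_mem hi]; omega)
        y ?_
      · intro z hz
        have hz' : ∀ j, j ∉ U → z j = x j := by
          intro j hj
          have hji : j ≠ i := fun h => hj (h ▸ hi)
          rw [hz j fun h => hj (mem_of_mem_erase h), Function.update_of_ne hji]
        intro j hj
        refine mem_erase.2 ⟨?_, hU z hz' hj⟩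
        rintro rfl
        rw [hb z hz', hz j (notMem_erase j U)] at hj
        simp at hj
      · intro j hj
        by_cases hji : j = i
        · subst hji
          rw [hyi]; simp
        · rw [Function.update_of_ne hji]
          exact hy j fun h => hj (mem_erase.2 ⟨hji, h⟩)
    intro y hy
    by_contra hcon
    push Not at hcon
    -- a bad vertex with maximal value
    set B := univ.filter fun z : Fin n → Bool => (∀ j, j ∉ U → z j = x j) ∧
      ((m + 1 : ℕ) : ℝ) * ((m + 1 : ℕ) + 1) / 2 < T z with hB
    have hBne : B.Nonempty := ⟨y, by rw [hB]; simp only [mem_filter, mem_univ, true_and]; exact ⟨hy, hcon⟩⟩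
    obtain ⟨z, hz, hmax⟩ := exists_max_image B f hBne
    rw [hB] at hz
    simp only [mem_filter, mem_univ, true_and] at hz
    obtain ⟨hz1, hz2⟩ := hz
    have hm0 : (0 : ℝ) ≤ m := Nat.cast_nonneg m
    by_cases hzi : z i = b
    · have hi2 : i ∈ improving f z := (hb z hz1).2 hzi
      have hs : (improving f z).Nonempty := ⟨i, hi2⟩
      have hcard : (improving f z).card ≤ m + 1 := by
        rw [← hn]; exact card_le_card (hU z hz1)
      have hspos : (0 : ℝ) < (improving f z).card := by exact_mod_cast hs.card_pos
      have hnb : ∀ j ∈ improving f z, T (flip z j) ≤ ((m + 1 : ℕ) : ℝ) * ((m + 1 : ℕ) + 1) / 2 := by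
        intro j hj
        by_contra h
        push Not at h
        have hjU := hU z hz1 hj
        have h1 : flip z j ∈ B := by
          rw [hB]
          simp only [mem_filter, mem_univ, true_and]
          refine ⟨fun l hl => ?_, h⟩
          have hlj : l ≠ j := fun h => hl (h ▸ hjU)
          rw [flip_ne z hlj, hz1 l hl]
        have h2 := hmax _ h1
        rw [mem_improving] at hj
        omega
      have hgi : T (flip z i) ≤ (m : ℝ) * (m + 1) / 2 := by
        apply good
        · intro l hl
          have hli : l ≠ i := fun h => hl (h ▸ hi)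
          rw [flip_ne z hli, hz1 l hl]
        · rw [flip_self, hzi]
      have hsum : ∑ j ∈ improving f z, T (flip z j) ≤
          (improving f z).card * (((m + 1 : ℕ) : ℝ) * ((m + 1 : ℕ) + 1) / 2) - (m + 1) := by
        rw [← add_sum_erase _ _ hi2]
        have h3 : ∑ j ∈ (improving f z).erase i, T (flip z j) ≤
            ((improving f z).erase i).card • (((m + 1 : ℕ) : ℝ) * ((m + 1 : ℕ) + 1) / 2) :=
          sum_le_card_nsmul _ _ _ fun j hj => hnb j (mem_of_mem_erase hj)
        rw [card_erase_of_mem hi2, nsmul_eq_mul, Nat.cast_sub hs.card_pos] at h3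
        push_cast at h3 ⊢
        linarith
      have hTz := (hT z).2 hs
      have h4 : (∑ j ∈ improving f z, T (flip z j)) / (improving f z).card ≤
          ((m + 1 : ℕ) : ℝ) * ((m + 1 : ℕ) + 1) / 2 - 1 := by
        rw [div_le_iff₀ hspos]
        refine hsum.trans ?_
        have h5 : ((improving f z).card : ℝ) ≤ m + 1 := by exact_mod_cast hcard
        push_cast
        nlinarith
      linarith
    · have hzi' : z i = !b := by
        revert hzi
        cases z i <;> cases b <;> simp
      have := good z hz1 hzi'
      push_cast at hz2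
      nlinarith

/-- existence of the expectation for random edge -/
lemma exists_randomEdge (f : (Fin n → Bool) → ℕ) :
    ∃ T : (Fin n → Bool) → ℝ, RandomEdge f T := by
  obtain ⟨N, hN⟩ : ∃ N, ∀ x, f x ≤ N :=
    ⟨univ.sup f, fun x => le_sup (f := f) (mem_univ x)⟩
  have key : ∀ k, ∃ T : (Fin n → Bool) → ℝ, ∀ x, N < f x + k →
      (improving f x = ∅ → T x = 0) ∧ ((improving f x).Nonempty →
      T x = 1 + (∑ i ∈ improving f x, T (flip x i)) / (improving f x).card) := by
    intro k
    induction k with
    | zero => exact ⟨fun _ => 0, fun x hx => by have := hN x; omega⟩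
    | succ k ih =>
      obtain ⟨T, hT⟩ := ih
      classical
      refine ⟨fun x => if N < f x + k then T x else if improving f x = ∅ then 0 else
        1 + (∑ i ∈ improving f x, T (flip x i)) / (improving f x).card, ?_⟩
      intro x hx
      have hnb : ∀ i ∈ improving f x, N < f (flip x i) + k := by
        intro i hi
        rw [mem_improving] at hi
        omega
      have hsum : ∑ i ∈ improving f x, (if N < f (flip x i) + k then T (flip x i) else
          if improving f (flip x i) = ∅ then 0 else
          1 + (∑ j ∈ improving f (flip x i), T (flip (flip x i) j)) /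
            (improving f (flip x i)).card) = ∑ i ∈ improving f x, T (flip x i) :=
        sum_congr rfl fun i hi => if_pos (hnb i hi)
      constructor
      · intro h
        show (if _ then _ else _) = _
        split_ifs with h1
        · exact (hT x h1).1 h
        · rfl
      · intro h
        show (if _ then _ else _) = 1 + (∑ i ∈ improving f x, (if N < f (flip x i) + k then
          T (flip x i) else if improving f (flip x i) = ∅ then 0 else
          1 + (∑ j ∈ improving f (flip x i), T (flip (flip x i) j)) /
            (improving f (flip x i)).card)) / _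
        rw [hsum]
        split_ifs with h1 h2
        · exact (hT x h1).2 h
        · rw [h2] at h; exact absurd h not_nonempty_empty
        · rfl
  obtain ⟨T, hT⟩ := key (N + 1)
  exact ⟨T, fun x => hT x (by omega)⟩

/-- all consequences of combedness -/
theorem Combed.all {f : (Fin n → Bool) → ℕ} (hinj : Function.Injective f) (hf : Combed f) :
    (∀ (U : Finset (Fin n)) (x : Fin n → Bool), ∃! y : Fin n → Bool,
      (∀ i, i ∉ U → y i = x i) ∧ ∀ i ∈ U, f (flip y i) < f y) ∧
    (∀ x : Fin n → Bool, ∃ (m : ℕ) (w : ℕ → (Fin n → Bool)), m ≤ n ∧ w 0 = x ∧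
      (∀ k < m, ∃ i ∈ improving f (w k), w (k + 1) = flip (w k) i) ∧
      improving f (w m) = ∅) ∧
    ∃ T : (Fin n → Bool) → ℝ, RandomEdge f T ∧ ∀ x, T x ≤ (n : ℝ) * (n + 1) / 2 := by
  refine ⟨?_, ?_, ?_⟩
  · intro U x
    have := hf.unique U x
    simpa only [not_mem_improving hinj] using this
  · intro x
    obtain ⟨t, ⟨_, ht⟩, _⟩ := hf.unique univ x
    have ht' : improving f t = ∅ := by
      rw [eq_empty_iff_forall_notMem]
      exact fun i => ht i (mem_univ i)
    obtain ⟨w, h0, h1, h2⟩ := hf.short t ht' x
    refine ⟨_, w, ?_, h0, h1, h2⟩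
    refine (card_le_univ _).trans ?_
    rw [Fintype.card_fin]
  · obtain ⟨T, hT⟩ := exists_randomEdge f
    refine ⟨T, hT, fun x => ?_⟩
    have := hf.randomEdge hT univ x (fun y _ => subset_univ _) x (fun _ _ => rfl)
    simpa only [card_univ, Fintype.card_fin] using this

end Pool.Agent.H454R3
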