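import Pool.Agent.H454R3.Select
import Pool.Agent.H454R3.Tri
set_option autoImplicit false

/-!
# A steered Klee–Minty cube
-/

namespace Pool.Agent.H454R3

open Finset

variable {n : ℕ}

/-- parity along the list, `true` if `u` agrees with `x₀` -/
def par (x₀ : Fin n → Bool) : List (Fin n) → (Fin n → Bool) → Bool
  | [], _ => true
  | y :: t, u => xor (xor (u y) (x₀ y)) (par x₀ t u)

/-- the outmap of the Klee–Minty cube -/
def Dd (x₀ : Fin n → Bool) : List (Fin n) → (Fin n → Bool) → Finset (Fin n)
  | [], _ => ∅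
  | y :: t, u => if par x₀ (y :: t) u then insert y (Dd x₀ t u) else Dd x₀ t u

/-- the number of remaining steps -/
def num (x₀ : Fin n → Bool) : List (Fin n) → (Fin n → Bool) → ℕ
  | [], _ => 0
  | y :: t, u => 2 * num x₀ t u + (par x₀ (y :: t) u).toNat

lemma par_congr (x₀ : Fin n → Bool) (t : List (Fin n)) (u u' : Fin n → Bool)
    (h : ∀ i ∈ t, u i = u' i) : par x₀ t u = par x₀ t u' := by
  induction t with
  | nil => rfl
  | cons y t ih =>
    rw [par, par, ih fun i hi => h i (List.mem_cons_of_mem y hi), h y List.mem_cons_self]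

lemma Dd_congr (x₀ : Fin n → Bool) (t : List (Fin n)) (u u' : Fin n → Bool)
    (h : ∀ i ∈ t, u i = u' i) : Dd x₀ t u = Dd x₀ t u' := by
  induction t with
  | nil => rfl
  | cons y t ih =>
    rw [Dd, Dd, ih fun i hi => h i (List.mem_cons_of_mem y hi), par_congr x₀ (y :: t) u u' h]

lemma Dd_subset (x₀ : Fin n → Bool) (t : List (Fin n)) (u : Fin n → Bool) :
    Dd x₀ t u ⊆ t.toFinset := by
  induction t with
  | nil => simp [Dd]
  | cons y t ih =>
    rw [Dd, List.toFinset_cons]
    split_ifs
    · exact insert_subset_insert y ih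
    · exact ih.trans (subset_insert y _)

lemma num_congr (x₀ : Fin n → Bool) (t : List (Fin n)) (u u' : Fin n → Bool)
    (h : ∀ i ∈ t, u i = u' i) : num x₀ t u = num x₀ t u' := by
  induction t with
  | nil => rfl
  | cons y t ih =>
    rw [num, num, ih fun i hi => h i (List.mem_cons_of_mem y hi), par_congr x₀ (y :: t) u u' h]

lemma par_flip (x₀ : Fin n → Bool) (t : List (Fin n)) (ht : t.Nodup) (u : Fin n → Bool)
    {y : Fin n} (hy : y ∈ t) : par x₀ t (flip u y) = !par x₀ t u := by
  induction t with
  | nil => simp at hy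
  | cons z t ih =>
    rw [par, par]
    rcases List.mem_cons.1 hy with h | h
    · subst h
      rw [par_congr x₀ t (flip u y) u fun i hi => flip_ne u fun h =>
        (List.nodup_cons.1 ht).1 (h ▸ hi), flip_self]
      cases u y <;> cases x₀ y <;> cases par x₀ t u <;> rfl
    · have hne : z ≠ y := by
        rintro rfl
        exact (List.nodup_cons.1 ht).1 h
      rw [flip_ne u hne, ih (List.nodup_cons.1 ht).2 h]
      cases u z <;> cases x₀ z <;> cases par x₀ t u <;> rfl

lemma num_flip (x₀ : Fin n → Bool) (t : List (Fin n)) (ht : t.Nodup) (u : Fin n → Bool)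
    {y : Fin n} (hF : First t (Dd x₀ t u) y) : y ∈ t ∧ num x₀ t (flip u y) + 1 = num x₀ t u := by
  induction t with
  | nil => exact absurd hF id
  | cons z t ih =>
    have hzD : z ∉ Dd x₀ t u := fun h =>
      (List.nodup_cons.1 ht).1 (List.mem_toFinset.1 (Dd_subset x₀ t u h))
    by_cases hp : par x₀ (z :: t) u = true
    · have hD : Dd x₀ (z :: t) u = insert z (Dd x₀ t u) := by rw [Dd, if_pos hp]
      have h1 : y = z := by
        have h2 : if z ∈ Dd x₀ (z :: t) u then y = z else First t (Dd x₀ (z :: t) u) y := hF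
        rwa [hD, if_pos (mem_insert_self z _)] at h2
      subst h1
      refine ⟨List.mem_cons_self, ?_⟩
      rw [num, num, par_flip x₀ (y :: t) ht u List.mem_cons_self, hp,
        num_congr x₀ t (flip u y) u fun i hi => flip_ne u fun h =>
        (List.nodup_cons.1 ht).1 (h ▸ hi)]
      rfl
    · have hD : Dd x₀ (z :: t) u = Dd x₀ t u := by rw [Dd, if_neg hp]
      have h2 : if z ∈ Dd x₀ (z :: t) u then y = z else First t (Dd x₀ (z :: t) u) y := hF
      rw [hD, if_neg hzD] at h2
      obtain ⟨h3, h4⟩ := ih (List.nodup_cons.1 ht).2 h2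
      have hp' : par x₀ (z :: t) u = false := by
        revert hp
        cases par x₀ (z :: t) u <;> simp
      refine ⟨List.mem_cons_of_mem z h3, ?_⟩
      rw [num, num, par_flip x₀ (z :: t) ht u (List.mem_cons_of_mem z h3), hp']
      simp only [Bool.not_false, Bool.toNat_true, Bool.toNat_false]
      omega

lemma num_eq_zero (x₀ : Fin n → Bool) (t : List (Fin n)) (u : Fin n → Bool) :
    num x₀ t u = 0 ↔ Dd x₀ t u = ∅ := by
  induction t with
  | nil => simp [num, Dd]
  | cons z t ih =>
    rw [num, Dd]
    cases hp : par x₀ (z :: t) u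
    · simp only [Bool.toNat_false, add_zero, Nat.mul_eq_zero, OfNat.ofNat_ne_zero, false_or,
        Bool.false_eq_true, if_false]
      exact ih
    · simp

lemma par_self (x₀ : Fin n → Bool) (t : List (Fin n)) : par x₀ t x₀ = true := by
  induction t with
  | nil => rfl
  | cons y t ih =>
    rw [par, ih]
    cases x₀ y <;> rfl

lemma num_self (x₀ : Fin n → Bool) (t : List (Fin n)) : num x₀ t x₀ + 1 = 2 ^ t.length := by
  induction t with
  | nil => rfl
  | cons y t ih =>
    rw [num, par_self, List.length_cons, pow_succ, ← ih]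
    simp only [Bool.toNat_true]
    ring

/-- the orientation; `St` is the steering function -/
def cc (x₀ : Fin n → Bool) (St : Finset (Fin n) → Finset (Fin n)) (t₀ : List (Fin n)) :
    List (Fin n) → Fin n → (Fin n → Bool) → Bool
  | [], i, u => !(xor (x₀ i) (decide (i ∈ St (Dd x₀ t₀ u))))
  | y :: t, i, u => if i = y then !(xor (x₀ y) (par x₀ t u)) else cc x₀ St t₀ t i u

lemma cc_mem (x₀ : Fin n → Bool) (St : Finset (Fin n) → Finset (Fin n)) (t₀ t : List (Fin n))
    (ht : t.Nodup) (u : Fin n → Bool) {i : Fin n} (hi : i ∈ t) :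
    u i = cc x₀ St t₀ t i u ↔ i ∈ Dd x₀ t u := by
  induction t with
  | nil => simp at hi
  | cons z t ih =>
    have hzD : z ∉ Dd x₀ t u := fun h =>
      (List.nodup_cons.1 ht).1 (List.mem_toFinset.1 (Dd_subset x₀ t u h))
    rcases List.mem_cons.1 hi with h | h
    · subst h
      rw [cc, if_pos rfl, Dd, par]
      by_cases hp : (xor (xor (u i) (x₀ i)) (par x₀ t u)) = true
      · rw [if_pos hp]
        constructor
        · intro _; exact mem_insert_self i _
        · intro _
          revert hp
          cases u i <;> cases x₀ i <;> cases par x₀ t u <;> simp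
      · rw [if_neg hp]
        constructor
        · intro h2
          exfalso
          revert hp h2
          cases u i <;> cases x₀ i <;> cases par x₀ t u <;> simp
        · intro h2; exact absurd h2 hzD
    · have hne : i ≠ z := by
        rintro rfl
        exact (List.nodup_cons.1 ht).1 h
      rw [cc, if_neg hne, ih (List.nodup_cons.1 ht).2 h, Dd]
      split_ifs
      · rw [mem_insert]
        exact ⟨Or.inr, fun h => h.resolve_left hne⟩
      · rfl

lemma cc_notMem (x₀ : Fin n → Bool) (St : Finset (Fin n) → Finset (Fin n))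
    (t₀ t : List (Fin n)) (u : Fin n → Bool) {i : Fin n} (hi : i ∉ t) :
    cc x₀ St t₀ t i u = !(xor (x₀ i) (decide (i ∈ St (Dd x₀ t₀ u)))) := by
  induction t with
  | nil => rfl
  | cons z t ih =>
    have hne : i ≠ z := fun h => hi (h ▸ List.mem_cons_self)
    rw [cc, if_neg hne, ih fun h => hi (List.mem_cons_of_mem z h)]

/-- the part of the order which comes from the main list -/
lemma tri_main (x₀ : Fin n → Bool) (St : Finset (Fin n) → Finset (Fin n)) (t₀ : List (Fin n))
    (s : List (Fin n)) : ∀ (t R : List (Fin n)), (t ++ s).Nodup →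
      (∀ i ∈ t, i ∉ R) → (∀ i ∈ s, i ∉ R) → (∀ i ∈ s, i ∉ t) →
      (∀ i ∈ t, ∀ u, cc x₀ St t₀ t₀ i u = cc x₀ St t₀ t i u) →
      Tri (cc x₀ St t₀ t₀) R → Tri (cc x₀ St t₀ t₀) (t.reverse ++ R) := by
  intro t
  induction t with
  | nil => intro R _ _ _ _ _ h; simpa using h
  | cons y t ih =>
    intro R h1 h2 h3 h4 h5 h6
    rw [List.reverse_cons, List.append_assoc]
    have hnd : y ∉ t ∧ t.Nodup := by
      have := List.Nodup.of_append_left h1
      exact List.nodup_cons.1 this
    apply ih (R := [y] ++ R)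
    · exact (List.nodup_cons.1 h1).2
    · intro i hi h7
      rcases List.mem_cons.1 h7 with h8 | h8
      · rw [h8] at hi; exact hnd.1 hi
      · exact h2 i (List.mem_cons_of_mem y hi) h8
    · intro i hi h7
      rcases List.mem_cons.1 h7 with h8 | h8
      · rw [h8] at hi; exact h4 y hi List.mem_cons_self
      · exact h3 i hi h8
    · intro i hi h7
      exact h4 i hi (List.mem_cons_of_mem y h7)
    · intro i hi u
      rw [h5 i (List.mem_cons_of_mem y hi) u, cc, if_neg]
      rintro rfl
      exact hnd.1 hi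
    · refine ⟨?_, h6⟩
      intro u u' h
      rw [h5 y List.mem_cons_self u, h5 y List.mem_cons_self u', cc, cc, if_pos rfl, if_pos rfl,
        par_congr x₀ t u u']
      intro i hi
      apply h
      intro h7
      rcases List.mem_cons.1 h7 with h8 | h8
      · rw [h8] at hi; exact hnd.1 hi
      · exact h2 i (List.mem_cons_of_mem y hi) h8

/-- the part of the order which comes from the other directions -/
lemma tri_rest (x₀ : Fin n → Bool) (St : Finset (Fin n) → Finset (Fin n)) (t₀ : List (Fin n))
    (R : List (Fin n)) (hR : ∀ i ∈ R, i ∉ t₀) : Tri (cc x₀ St t₀ t₀) R := by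
  induction R with
  | nil => trivial
  | cons z R ih =>
    refine ⟨?_, ih fun i hi => hR i (List.mem_cons_of_mem z hi)⟩
    intro u u' h
    rw [cc_notMem x₀ St t₀ t₀ u (hR z List.mem_cons_self),
      cc_notMem x₀ St t₀ t₀ u' (hR z List.mem_cons_self), Dd_congr x₀ t₀ u u']
    intro i hi
    exact h i fun h7 => hR i h7 hi

/-- **The steered Klee–Minty cube.** -/
theorem exists_cube (r : Finset (Fin n) → Fin n) (x₀ : Fin n → Bool) (t : List (Fin n))
    (ht : t.Nodup)
    (hst : ∀ D : Finset (Fin n), D ⊆ t.toFinset → D.Nonempty →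
      ∃ S : Finset (Fin n), S ∩ t.toFinset = D ∧ First t D (r S)) :
    ∃ f : (Fin n → Bool) → ℕ, Function.Injective f ∧ Combed f ∧
      ∃ (L : ℕ) (v : ℕ → (Fin n → Bool)), L + 1 = 2 ^ t.length ∧ v 0 = x₀ ∧
        (∀ k < L, (improving f (v k)).Nonempty ∧
          v (k + 1) = flip (v k) (r (improving f (v k)))) ∧
        improving f (v L) = ∅ := by
  classical
  -- the steering function
  have hst' : ∀ D : Finset (Fin n), ∃ S : Finset (Fin n), D ⊆ t.toFinset →
      S ∩ t.toFinset = D ∧ (D = ∅ → S = ∅) ∧ (D.Nonempty → First t D (r S)) := by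
    intro D
    rcases D.eq_empty_or_nonempty with h | h
    · refine ⟨∅, fun _ => ⟨by rw [h]; simp, fun _ => rfl, fun h' => ?_⟩⟩
      rw [h] at h'; exact absurd h' not_nonempty_empty
    · by_cases hD : D ⊆ t.toFinset
      · obtain ⟨S, h1, h2⟩ := hst D hD h
        refine ⟨S, fun _ => ⟨h1, fun h' => ?_, fun _ => h2⟩⟩
        rw [h'] at h; exact absurd h not_nonempty_empty
      · exact ⟨∅, fun h' => absurd h' hD⟩
  choose St hSt using hst'
  set R : List (Fin n) := (univ.filter fun i => i ∉ t).toList with hR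
  have hRmem : ∀ i, i ∈ R ↔ i ∉ t := by
    intro i
    rw [hR, mem_toList, mem_filter]
    simp
  obtain ⟨f, hinj, hcomb, himp⟩ := exists_tri (cc x₀ St t t) (t.reverse ++ R)
    (by
      rw [List.nodup_append]
      refine ⟨List.nodup_reverse.2 ht, nodup_toList _, ?_⟩
      intro a ha b hb hab
      rw [hab] at ha
      exact (hRmem b).1 hb (List.mem_reverse.1 ha))
    (by
      intro i
      rw [List.mem_append, List.mem_reverse, hRmem]
      exact em _)
    (by
      have := tri_main x₀ St t [] t R (by simpa using ht)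
        (fun i hi h => (hRmem i).1 h hi) (by simp) (by simp) (fun _ _ _ => rfl)
        (tri_rest x₀ St t R fun i hi => (hRmem i).1 hi)
      exact this)
  -- the improving set at vertices which agree with `x₀` outside the list
  have himp2 : ∀ u : Fin n → Bool, (∀ i, i ∉ t → u i = x₀ i) →
      improving f u = St (Dd x₀ t u) := by
    intro u hu
    have h1 := hSt (Dd x₀ t u) (Dd_subset x₀ t u)
    ext i
    rw [himp]
    by_cases hi : i ∈ t
    · rw [cc_mem x₀ St t t ht u hi]
      constructor
      · intro h2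
        rw [← h1.1] at h2
        exact (mem_inter.1 h2).1
      · intro h2
        rw [← h1.1]
        exact mem_inter.2 ⟨h2, List.mem_toFinset.2 hi⟩
    · rw [cc_notMem x₀ St t t u hi, hu i hi]
      by_cases h2 : i ∈ St (Dd x₀ t u)
      · simp [h2]
      · simp only [h2, decide_false, Bool.xor_false, iff_false]
        cases x₀ i <;> simp
  refine ⟨f, hinj, hcomb, num x₀ t x₀,
    fun k => Nat.rec x₀ (fun _ u => flip u (r (improving f u))) k, num_self x₀ t, rfl, ?_⟩
  set v : ℕ → (Fin n → Bool) := fun k => Nat.rec x₀ (fun _ u => flip u (r (improving f u))) k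
    with hv
  have hv1 : ∀ k, v (k + 1) = flip (v k) (r (improving f (v k))) := fun k => rfl
  have key : ∀ k, k ≤ num x₀ t x₀ → (∀ i, i ∉ t → v k i = x₀ i) ∧
      num x₀ t (v k) + k = num x₀ t x₀ := by
    intro k
    induction k with
    | zero => exact fun _ => ⟨fun _ _ => rfl, rfl⟩
    | succ k ih =>
      intro hk
      obtain ⟨h1, h2⟩ := ih (by omega)
      have hne : (Dd x₀ t (v k)).Nonempty := by
        rw [nonempty_iff_ne_empty]
        intro h
        rw [← num_eq_zero] at h
        omega
      have h3 := (hSt _ (Dd_subset x₀ t (v k))).2.2 hne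
      rw [← himp2 (v k) h1] at h3
      obtain ⟨h4, h5⟩ := num_flip x₀ t ht (v k) h3
      rw [hv1]
      refine ⟨?_, by omega⟩
      intro i hi
      have hne2 : i ≠ r (improving f (v k)) := fun h => hi (by rw [h]; exact h4)
      rw [flip_ne (v k) hne2, h1 i hi]
  refine ⟨?_, ?_⟩
  · intro k hk
    obtain ⟨h1, h2⟩ := key k hk.le
    refine ⟨?_, hv1 k⟩
    rw [himp2 (v k) h1]
    have hne : (Dd x₀ t (v k)).Nonempty := by
      rw [nonempty_iff_ne_empty]
      intro h
      rw [← num_eq_zero] at h
      omega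
    obtain ⟨y, hy⟩ := hne
    rw [← (hSt _ (Dd_subset x₀ t (v k))).1] at hy
    exact ⟨y, (mem_inter.1 hy).1⟩
  · obtain ⟨h1, h2⟩ := key _ le_rfl
    show improving f (v (num x₀ t x₀)) = ∅
    rw [himp2 _ h1]
    have h3 : Dd x₀ t (v (num x₀ t x₀)) = ∅ := by
      rw [← num_eq_zero]
      omega
    exact (hSt _ (Dd_subset x₀ t _)).2.1 h3

end Pool.Agent.H454R3
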