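import Pool.Agent.H454R3.Defs
set_option autoImplicit false

namespace Pool.Agent.H454R3

open Finset

/-- the facets `{y : y i = b}` of the `n`-cube, represented by `(i, b)`, which contain the vertex
`x` and are left by an improving edge at `x` -/
def leaving {n : ℕ} (f : (Fin n → Bool) → ℕ) (x : Fin n → Bool) : Finset (Fin n × Bool) :=
  (improving f x).image fun i => (i, x i)

end Pool.Agent.H454R3
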