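import Pool.Agent.H454R3.OWalk
set_option autoImplicit false

/-!
# The steered cube for rules which see the coordinates of the improving directions
-/

namespace Pool.Agent.H454R3

open Finset

variable {n : ℕ}

/-- the orientation of an element only depends on the earlier elements -/
lemma cm_prefix (τ : Fin n → Bool) : ∀ (m : Mode) (s : List (Fin n)), s.Nodup →
    ∀ (pre : List (Fin n)) (z : Fin n) (suf : List (Fin n)), s = pre ++ z :: suf →
    ∀ x x' : Fin n → Bool, (∀ i ∈ pre, x i = x' i) → cm τ m s z x = cm τ m s z x'
  | m, [], _, pre, z, suf, h, _, _, _ => by simp at h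
  | .down, _ :: _, _, pre, z, suf, h, x, x', hx => rfl
  | .reset, f :: F, hs, pre, z, suf, h, x, x', hx => by
    cases pre with
    | nil =>
      rw [List.nil_append, List.cons.injEq] at h
      rw [cm, cm, if_pos h.1.symm, if_pos h.1.symm]
    | cons g pre =>
      rw [List.cons_append, List.cons.injEq] at h
      obtain ⟨h1, h2⟩ := h
      subst h1
      have hz : z ≠ f := by
        rintro rfl
        exact (List.nodup_cons.1 hs).1 (by rw [h2]; simp)
      rw [cm, cm, if_neg hz, if_neg hz, hx f (by simp),
        cm_prefix τ .reset F (List.nodup_cons.1 hs).2 pre z suf h2 x x'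
          fun i hi => hx i (by simp [hi])]
  | .walk, [d], hs, pre, z, suf, h, x, x', hx => by
    rw [cm, cm]
  | .walk, d :: e :: F, hs, pre, z, suf, h, x, x', hx => by
    cases pre with
    | nil =>
      rw [List.nil_append, List.cons.injEq] at h
      rw [cm, cm, if_pos h.1.symm, if_pos h.1.symm]
    | cons g pre =>
      rw [List.cons_append, List.cons.injEq] at h
      obtain ⟨h1, h2⟩ := h
      subst h1
      have hz : z ≠ d := by
        rintro rfl
        exact (List.nodup_cons.1 hs).1 (by rw [h2]; simp)
      cases pre with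
      | nil =>
        rw [List.nil_append, List.cons.injEq] at h2
        rw [cm, cm, if_neg hz, if_neg hz, if_pos h2.1.symm, if_pos h2.1.symm, hx d (by simp)]
      | cons g pre =>
        rw [List.cons_append, List.cons.injEq] at h2
        obtain ⟨h3, h4⟩ := h2
        subst h3
        have hs2 := (List.nodup_cons.1 hs).2
        have hz2 : z ≠ e := by
          rintro rfl
          exact (List.nodup_cons.1 hs2).1 (by rw [h4]; simp)
        have hF := (List.nodup_cons.1 hs2).2
        rw [cm, cm, if_neg hz, if_neg hz, if_neg hz2, if_neg hz2, hx d (by simp), hx e (by simp),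
          cm_prefix τ .reset F hF pre z suf h4 x x' fun i hi => hx i (by simp [hi]),
          cm_prefix τ .walk F hF pre z suf h4 x x' fun i hi => hx i (by simp [hi])]

lemma tri_of_prefix (c : Fin n → (Fin n → Bool) → Bool) (s R : List (Fin n))
    (h1 : ∀ (pre : List (Fin n)) (z : Fin n) (suf : List (Fin n)), s = pre ++ z :: suf →
      ∀ x x' : Fin n → Bool, (∀ i ∈ pre, x i = x' i) → c z x = c z x')
    (h2 : ∀ w ∈ R, ∀ x x' : Fin n → Bool, (∀ i ∈ s, x i = x' i) → c w x = c w x')
    (hnd : (s ++ R).Nodup) : Tri c (s ++ R) := by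
  have hR : ∀ t : List (Fin n), (∀ i ∈ t, i ∈ R) → Tri c t := by
    intro t
    induction t with
    | nil => intro _; trivial
    | cons w t ih =>
      intro ht
      refine ⟨fun u u' hu => h2 w (ht w (by simp)) u u' fun i hi => hu i fun h => ?_,
        ih fun i hi => ht i (by simp [hi])⟩
      exact (List.nodup_append.1 hnd).2.2 i hi i (ht i h) rfl
  have key : ∀ t pre : List (Fin n), s = pre ++ t → Tri c (t ++ R) := by
    intro t
    induction t with
    | nil => intro _ _; exact hR R fun _ h => h
    | cons z t ih =>
      intro pre hs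
      refine ⟨fun u u' hu => h1 pre z t hs u u' fun i hi => hu i fun h => ?_,
        ih (pre ++ [z]) (by rw [hs]; simp)⟩
      rw [hs] at hnd
      have h3 := (List.nodup_append.1 (by simpa using hnd)).2.2 i hi
      exact h3 i (by simpa using h) rfl
  exact key s [] (by simp)

/-- **The steered cube.** -/
theorem exists_ocube (R : Finset (Fin n) → (Fin n → Bool) → Fin n)
    (hloc : ∀ (S : Finset (Fin n)) (x x' : Fin n → Bool), (∀ i ∈ S, x i = x' i) → R S x = R S x')
    (τ : Fin n → Bool) (pos : Fin n → ℕ) (s : List (Fin n)) (hs : s.Nodup)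
    (hP : s.Pairwise fun a b => pos b < pos a)
    (hst : ∀ D : Finset (Fin n), D ⊆ s.toFinset → ∀ y ∈ D, (∀ z ∈ D, z ≠ y → pos y < pos z) →
      ∀ σ : Bool, ∃ S : Finset (Fin n), S ∩ s.toFinset = D ∧ R S (Function.update τ y σ) = y) :
    ∃ f : (Fin n → Bool) → ℕ, Function.Injective f ∧ Combed f ∧
      ∃ v : ℕ → (Fin n → Bool), v 0 = τ ∧
        (∀ k < Tlen s.length, (improving f (v k)).Nonempty ∧
          v (k + 1) = flip (v k) (R (improving f (v k)) (v k))) ∧
        improving f (v (Tlen s.length)) = ∅ := by
  classical
  have hsub : ∀ v : Fin n → Bool, imp τ .walk s v ⊆ s.toFinset := fun v => filter_subset _ _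
  have hst' : ∀ v : Fin n → Bool, ∃ S : Finset (Fin n), (∀ i, i ∉ s → v i = τ i) →
      S ∩ s.toFinset = imp τ .walk s v ∧ (imp τ .walk s v = ∅ → S = ∅) ∧
      ∀ y ∈ imp τ .walk s v, (∀ z ∈ imp τ .walk s v, z ≠ y → pos y < pos z ∧ v z = τ z) →
        R S v = y := by
    intro v
    by_cases h : ∃ y ∈ imp τ .walk s v, ∀ z ∈ imp τ .walk s v, z ≠ y → pos y < pos z ∧ v z = τ z
    · obtain ⟨y, hy, h1⟩ := h
      obtain ⟨S, h2, h3⟩ := hst (imp τ .walk s v) (hsub v) y hy
        (fun z hz hzy => (h1 z hz hzy).1) (v y)
      refine ⟨S, fun hv => ⟨h2, fun h4 => ?_, ?_⟩⟩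
      · rw [h4] at hy; simp at hy
      · intro y' hy' h5
        have hyy : y' = y := by
          by_contra hne
          have h6 := (h1 y' hy' hne).1
          have h7 := (h5 y hy (Ne.symm hne)).1
          omega
        rw [hyy, ← h3]
        rw [h3]
        conv_rhs => rw [← h3]
        apply hloc
        intro i hi
        by_cases hiy : i = y
        · rw [hiy, Function.update_self]
        · rw [Function.update_of_ne hiy]
          by_cases his : i ∈ s
          · have : i ∈ imp τ .walk s v := by
              rw [← h2]; exact mem_inter.2 ⟨hi, List.mem_toFinset.2 his⟩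
            exact (h1 i this hiy).2
          · exact hv i his
    · refine ⟨imp τ .walk s v, fun _ => ⟨inter_eq_left.2 (hsub v), id, ?_⟩⟩
      intro y hy h1
      exact absurd ⟨y, hy, h1⟩ h
  choose St hSt using hst'
  set hat : (Fin n → Bool) → (Fin n → Bool) := fun x i => if i ∈ s then x i else τ i with hhat
  set c : Fin n → (Fin n → Bool) → Bool := fun z x =>
    if z ∈ s then cm τ .walk s z x else !(xor (τ z) (decide (z ∈ St (hat x)))) with hc
  set Rl : List (Fin n) := (univ.filter fun i => i ∉ s).toList with hRl
  have hRmem : ∀ i, i ∈ Rl ↔ i ∉ s := by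
    intro i
    rw [hRl, mem_toList, mem_filter]
    simp
  have hnd : (s ++ Rl).Nodup := by
    rw [List.nodup_append]
    refine ⟨hs, nodup_toList _, ?_⟩
    intro a ha b hb hab
    rw [hab] at ha
    exact (hRmem b).1 hb ha
  obtain ⟨f, hinj, hcomb, himp⟩ := exists_tri c (s ++ Rl) hnd
    (by
      intro i
      rw [List.mem_append, hRmem]
      exact em _)
    (by
      apply tri_of_prefix c s Rl _ _ hnd
      · intro pre z suf h x x' hx
        have hz : z ∈ s := by rw [h]; simp
        rw [hc]
        simp only [hz, if_true]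
        exact cm_prefix τ .walk s hs pre z suf h x x' hx
      · intro w hw x x' hx
        have hz : w ∉ s := (hRmem w).1 hw
        have h1 : hat x = hat x' := by
          rw [hhat]
          funext i
          by_cases hi : i ∈ s
          · simp only [hi, if_true]; exact hx i hi
          · simp only [hi, if_false]
        rw [hc]
        simp only [hz, if_false, h1])
  -- the improving set at vertices which agree with `τ` outside the list
  have himp2 : ∀ u : Fin n → Bool, (∀ i, i ∉ s → u i = τ i) → improving f u = St u := by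
    intro u hu
    have h1 := hSt u hu
    have h2 : hat u = u := by
      rw [hhat]
      funext i
      by_cases hi : i ∈ s
      · simp only [hi, if_true]
      · simp only [hi, if_false]; exact (hu i hi).symm
    ext i
    rw [himp]
    by_cases hi : i ∈ s
    · rw [hc]
      simp only [hi, if_true]
      constructor
      · intro h3
        have : i ∈ imp τ .walk s u := by
          unfold imp
          exact mem_filter.2 ⟨List.mem_toFinset.2 hi, h3⟩
        rw [← h1.1] at this
        exact (mem_inter.1 this).1
      · intro h3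
        have : i ∈ imp τ .walk s u := by
          rw [← h1.1]; exact mem_inter.2 ⟨h3, List.mem_toFinset.2 hi⟩
        exact (mem_filter.1 this).2
    · rw [hc]
      simp only [hi, if_false]
      rw [h2, hu i hi]
      by_cases h3 : i ∈ St u
      · simp [h3]
      · simp only [h3, decide_false, Bool.xor_false, iff_false]
        cases τ i <;> simp
  -- walks are paths of the rule
  have key : ∀ (L : ℕ) (x x' : Fin n → Bool), OWalk τ pos (imp τ .walk s) L x x' →
      (∀ i, i ∉ s → x i = τ i) → ∃ v : ℕ → (Fin n → Bool), v 0 = x ∧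
        (∀ k < L, (improving f (v k)).Nonempty ∧
          v (k + 1) = flip (v k) (R (improving f (v k)) (v k))) ∧ v L = x' := by
    intro L
    induction L with
    | zero =>
      intro x x' h _
      exact ⟨fun _ => x, rfl, by simp, h⟩
    | succ L ih =>
      intro x x' h hx
      obtain ⟨x₁, ⟨y, hy, h1, h2⟩, h3⟩ := h
      have hys : y ∈ s := List.mem_toFinset.1 (hsub x hy)
      have hx1 : ∀ i, i ∉ s → x₁ i = τ i := by
        intro i hi
        have hne : i ≠ y := fun h => hi (h ▸ hys)
        rw [h2, flip_ne x hne, hx i hi]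
      obtain ⟨w, w0, w1, w2⟩ := ih x₁ x' h3 hx1
      refine ⟨fun k => Nat.casesOn k x w, rfl, ?_, w2⟩
      intro k hk
      cases k with
      | zero =>
        have h4 := hSt x hx
        have h5 := himp2 x hx
        refine ⟨?_, ?_⟩
        · show (improving f x).Nonempty
          rw [h5]
          have : y ∈ St x ∩ s.toFinset := by rw [h4.1]; exact hy
          exact ⟨y, (mem_inter.1 this).1⟩
        · show w 0 = flip x (R (improving f x) x)
          rw [h5, h4.2.2 y hy h1, w0, h2]
      | succ k => exact w1 k (by omega)
  obtain ⟨x', h1, h2, h3⟩ := owalk_walk τ pos s hs hP (imp τ .walk s) ∅ τ (by simp) (by simp)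
    (fun y _ => by simp) (fun _ _ => rfl)
  obtain ⟨v, v0, v1, v2⟩ := key _ _ _ h1 fun _ _ => rfl
  refine ⟨f, hinj, hcomb, v, v0, v1, ?_⟩
  rw [v2, himp2 x' h2]
  exact (hSt x' h2).2.1 (imp_walk_a τ s hs x' h3)

end Pool.Agent.H454R3
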