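import Pool.Agent.H454R3.OPop
import Pool.Agent.H454R3.OCube
set_option autoImplicit false

/-!
# Steering sets for rules which see the coordinates of the improving directions
-/

namespace Pool.Agent.H454R3

open Finset

variable {n : ℕ}

theorem exists_osteer (R : Finset (Fin n) → (Fin n → Bool) → Fin n)
    (hR : ∀ (S : Finset (Fin n)) (x : Fin n → Bool), S.Nonempty → R S x ∈ S)
    (hloc : ∀ (S : Finset (Fin n)) (x x' : Fin n → Bool), (∀ i ∈ S, x i = x' i) → R S x = R S x')
    (h k : ℕ) (hh : 8 ≤ h) (hn : 320 * h ^ 4 ≤ n) (hk : 1 ≤ k) (hhk : 8 * h ≤ 2 ^ k) :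
    ∃ (τ : Fin n → Bool) (pos : Fin n → ℕ) (s : List (Fin n)), s.Nodup ∧
      (s.Pairwise fun a b => pos b < pos a) ∧ (h : ℝ) / (50 * k) ≤ s.length ∧
      ∀ D : Finset (Fin n), D ⊆ s.toFinset → ∀ y ∈ D, (∀ z ∈ D, z ≠ y → pos y < pos z) →
        ∀ σ : Bool, ∃ S : Finset (Fin n), S ∩ s.toFinset = D ∧
          R S (Function.update τ y σ) = y := by
  classical
  have hh4 : h ≤ h ^ 4 := Nat.le_self_pow (by norm_num) h
  have hn1 : 320 * h ≤ n := by omega
  have hn2 : 2560 ≤ n := by omega
  have hnr : (0 : ℝ) < n := by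
    have : 0 < n := by omega
    exact_mod_cast this
  have hhr : (8 : ℝ) ≤ h := by exact_mod_cast hh
  have hkr : (1 : ℝ) ≤ k := by exact_mod_cast hk
  have hn4 : 320 * (h : ℝ) ^ 4 ≤ n := by exact_mod_cast hn
  have hn1r : 320 * (h : ℝ) ≤ n := by exact_mod_cast hn1
  set p : ℝ := (h : ℝ) / n with hp
  have hpn : p * n = h := by rw [hp]; field_simp
  have h0 : 0 < p := by rw [hp]; positivity
  have hphalf : p ≤ 1 / 2 := by
    rw [hp, div_le_div_iff₀ hnr (by norm_num)]
    linarith
  have h1 : p ≤ 1 := by linarith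
  set K := 3 * n / 2 with hK
  obtain ⟨rk, a1, a2, a3, a4⟩ := exists_rank R hR h0 h1 (by omega) (by rw [hpn]; exact hhr) K
    (by omega)
  -- the fully layered coordinates
  set full : Finset (Fin n) := univ.filter fun x => rk (x, false) < K ∧ rk (x, true) < K
    with hfull
  have hfullc : (9 / 20 : ℝ) * n ≤ full.card := by
    have b1 : (univ \ full) ⊆ (univ.filter fun e : Fin n × Bool => rk e = K).image Prod.fst := by
      intro x hx
      rw [mem_sdiff, hfull, mem_filter] at hx
      have hx2 : ¬ (rk (x, false) < K ∧ rk (x, true) < K) := fun h => hx.2 ⟨mem_univ x, h⟩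
      rw [mem_image]
      by_cases hx3 : rk (x, false) < K
      · refine ⟨(x, true), ?_, rfl⟩
        rw [mem_filter]
        have := a1 (x, true)
        refine ⟨mem_univ _, ?_⟩
        by_contra h4
        exact hx2 ⟨hx3, by omega⟩
      · refine ⟨(x, false), ?_, rfl⟩
        rw [mem_filter]
        have := a1 (x, false)
        exact ⟨mem_univ _, by omega⟩
    have b2 := (card_le_card b1).trans card_image_le
    have b3 : (univ \ full).card + full.card = n := by
      have := card_sdiff_add_card_eq_card (subset_univ full)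
      rwa [card_univ, Fintype.card_fin] at this
    have b4 : n ≤ 2 * full.card + 1 := by omega
    have b5 : (n : ℝ) ≤ 2 * full.card + 1 := by exact_mod_cast b4
    have b6 : (2560 : ℝ) ≤ n := by exact_mod_cast hn2
    linarith
  set pos : Fin n → ℕ := fun x => max (rk (x, false)) (rk (x, true)) with hpos
  set β : Fin n → Bool := fun x => decide (rk (x, false) < rk (x, true)) with hβ
  have hposβ : ∀ x, rk (x, β x) = pos x := by
    intro x
    rw [hpos, hβ]
    by_cases hx : rk (x, false) < rk (x, true)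
    · simp only [hx, decide_true]
      exact (max_eq_right hx.le).symm
    · simp only [hx, decide_false]
      exact (max_eq_left (not_lt.1 hx)).symm
  have hposge : ∀ x σ, rk (x, σ) ≤ pos x := by
    intro x σ
    rw [hpos]
    cases σ
    · exact le_max_left _ _
    · exact le_max_right _ _
  set δ : ℝ := 1 / (4 * p * n) with hδ
  have hδ2 : δ = 1 / (4 * h) := by
    rw [hδ, mul_assoc, hpn]
  have hδpos : 0 < δ := by rw [hδ2]; positivity
  set P : Fin n → Bool → Finset (Fin n) → Prop := fun x σ A =>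
    δ / 2 ≤ G R p (aft rk (x, σ)) x σ (sg A) with hP
  have hP1 : ∀ x ∈ full, ∀ σ, 19 / 20 ≤ Pr (1 / 2) univ (P x σ) := by
    intro x hx σ
    have hxK : rk (x, σ) < K := by
      rw [hfull, mem_filter] at hx
      cases σ
      · exact hx.2.1
      · exact hx.2.2
    have c1 := cheb univ p δ hδpos (fun A => G R p (aft rk (x, σ)) x σ (sg A))
      (fun y _ A _ _ => G_lip R hloc h0.le h1 _ x σ _ _ y (sg_insert_ne y A)) (a4 (x, σ) hxK)
    have c2 := Pr_not (1 / 2) univ (P x σ)
    have c3 : (Finset.card (univ : Finset (Fin n)) : ℝ) * p ^ 2 / δ ^ 2 ≤ 1 / 20 := by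
      rw [card_univ, Fintype.card_fin, hδ2, hp]
      rw [show (n : ℝ) * ((h : ℝ) / n) ^ 2 / (1 / (4 * h)) ^ 2 = 16 * (h : ℝ) ^ 4 / n by
        field_simp
        ring]
      rw [div_le_div_iff₀ hnr (by norm_num)]
      linarith
    have c4 : Pr (1 / 2) univ (fun S => ¬ P x σ S) ≤ 1 / 20 := c1.trans c3
    linarith
  have hPind : ∀ x σ (A : Finset (Fin n)), (P x σ (insert x A) ↔ P x σ A) := by
    intro x σ A
    rw [hP]
    simp only
    rw [G_congr R p (aft rk (x, σ)) x σ _ _ (sg_insert_ne x A)]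
  -- the environment
  obtain ⟨A, _, hA⟩ := exists_ge_Ex (by norm_num : (0 : ℝ) ≤ 1 / 2) (by norm_num)
    (univ : Finset (Fin n)) (fun A => ∑ x ∈ full,
      if sg A x = β x ∧ (P x false A ∧ P x true A) then (1 : ℝ) else 0)
  have hA2 : (n : ℝ) / 5 ≤ Ex (1 / 2) (univ : Finset (Fin n)) (fun A => ∑ x ∈ full,
      if sg A x = β x ∧ (P x false A ∧ P x true A) then (1 : ℝ) else 0) := by
    rw [Ex_sum]
    have c1 : ∀ x ∈ full, 9 / 20 ≤ Ex (1 / 2) univ (fun A : Finset (Fin n) =>
        if sg A x = β x ∧ (P x false A ∧ P x true A) then (1 : ℝ) else 0) := by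
      intro x hx
      have c2 := Pr_and_ge (by norm_num : (0 : ℝ) ≤ 1 / 2) (by norm_num) univ (P x false)
        (P x true)
      have c3 := hP1 x hx false
      have c4 := hP1 x hx true
      have c5 : ∀ S : Finset (Fin n), ((P x false (insert x S) ∧ P x true (insert x S)) ↔
          (P x false S ∧ P x true S)) := fun S => by rw [hPind, hPind]
      have c6 : Pr (1 / 2) univ (fun A => sg A x = β x ∧ (P x false A ∧ P x true A)) =
          1 / 2 * Pr (1 / 2) univ (fun A => P x false A ∧ P x true A) := by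
        rcases hb : β x with _ | _
        · have := Pr_and_notMem (1 / 2) (mem_univ x) (fun A => P x false A ∧ P x true A) c5
          rw [show (1 - 1 / 2 : ℝ) = 1 / 2 by norm_num] at this
          rw [← this]
          refine Pr_congr fun S _ => ?_
          simp [sg]
        · rw [← Pr_and_mem (1 / 2) (mem_univ x) (fun A => P x false A ∧ P x true A) c5]
          refine Pr_congr fun S _ => ?_
          simp [sg]
      have c7 : Ex (1 / 2) univ (fun A : Finset (Fin n) =>
          if sg A x = β x ∧ (P x false A ∧ P x true A) then (1 : ℝ) else 0) =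
          Pr (1 / 2) univ (fun A => sg A x = β x ∧ (P x false A ∧ P x true A)) := by
        unfold Pr
        refine Ex_congr fun S _ => ?_
        congr
      rw [c7, c6]
      linarith
    have c8 := card_nsmul_le_sum full _ (9 / 20 : ℝ) c1
    rw [nsmul_eq_mul] at c8
    linarith
  set τ := sg A with hτ
  set X := full.filter fun x => τ x = β x ∧ (P x false A ∧ P x true A) with hX
  have hXc : (n : ℝ) / 5 ≤ X.card := by
    have := hA2.trans hA
    rw [sum_boole] at this
    exact this
  -- sparse random sets are shattered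
  have hkN : 1 ≤ 8 * k := by omega
  have hkN' : (1 : ℝ) ≤ (8 * k : ℕ) := by exact_mod_cast hkN
  set q : ℝ := p / (8 * k : ℕ) with hq
  have hq0 : 0 ≤ q := by rw [hq]; positivity
  have hq1 : q ≤ 1 := by
    rw [hq, div_le_one (by linarith)]
    linarith
  set Y : Fin n → Bool → Finset (Fin n) := fun x σ => grd (aft rk (x, σ)) τ x with hY
  set good : Fin n → Bool → Finset (Fin n) → Prop := fun x σ M =>
    Shat (Y x σ) (Pk R x σ τ) (M ∩ Y x σ) with hgood
  have hg1 : ∀ x ∈ X, ∀ σ, 9 / 10 ≤ Pr q univ (good x σ) := by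
    intro x hx σ
    have c1 : δ / 2 ≤ Pr p (Y x σ) (Pk R x σ τ) := by
      rw [hX, mem_filter] at hx
      cases σ
      · exact hx.2.2.1
      · exact hx.2.2.2
    have c2 : (1 / 2 : ℝ) ^ k ≤ δ / 2 := by
      rw [hδ2, one_div_pow, show (1 / (4 * (h : ℝ)) / 2) = 1 / (8 * h) by ring]
      apply one_div_le_one_div_of_le (by positivity)
      exact_mod_cast hhk
    have c3 := shat_nine h0.le hphalf hk (Y x σ) (Pk R x σ τ) (c2.trans c1)
    have c4 := Pr_inter q (subset_univ (Y x σ)) (Shat (Y x σ) (Pk R x σ τ))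
    rw [hgood]
    simp only
    rw [c4]
    exact c3
  have hgind : ∀ x σ (M : Finset (Fin n)), (good x σ (insert x M) ↔ good x σ M) := by
    intro x σ M
    rw [hgood]
    simp only
    rw [insert_inter_of_notMem]
    rw [hY]
    exact notMem_erase x _
  obtain ⟨M, _, hM⟩ := exists_ge_Ex hq0 hq1
    (univ : Finset (Fin n)) (fun M => ∑ x ∈ X,
      if x ∈ M ∧ (good x false M ∧ good x true M) then (1 : ℝ) else 0)
  have hM2 : (h : ℝ) / (50 * k) ≤ Ex q (univ : Finset (Fin n)) (fun M => ∑ x ∈ X,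
      if x ∈ M ∧ (good x false M ∧ good x true M) then (1 : ℝ) else 0) := by
    rw [Ex_sum]
    have c1 : ∀ x ∈ X, q * (4 / 5) ≤ Ex q univ (fun M : Finset (Fin n) =>
        if x ∈ M ∧ (good x false M ∧ good x true M) then (1 : ℝ) else 0) := by
      intro x hx
      have c2 := Pr_and_ge hq0 hq1 univ (good x false) (good x true)
      have c3 := hg1 x hx false
      have c4 := hg1 x hx true
      have c5 : ∀ S : Finset (Fin n), ((good x false (insert x S) ∧ good x true (insert x S)) ↔
          (good x false S ∧ good x true S)) := fun S => by rw [hgind, hgind]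
      have c6 := Pr_and_mem q (mem_univ x) (fun M => good x false M ∧ good x true M) c5
      have c7 : Ex q univ (fun M : Finset (Fin n) =>
          if x ∈ M ∧ (good x false M ∧ good x true M) then (1 : ℝ) else 0) =
          Pr q univ (fun M => x ∈ M ∧ (good x false M ∧ good x true M)) := by
        unfold Pr
        refine Ex_congr fun S _ => ?_
        congr
      rw [c7, c6]
      apply mul_le_mul_of_nonneg_left _ hq0
      linarith
    have c8 := card_nsmul_le_sum X _ (q * (4 / 5)) c1
    rw [nsmul_eq_mul] at c8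
    refine le_trans ?_ c8
    have c9 : (n : ℝ) / 5 * (q * (4 / 5)) = (h : ℝ) / (50 * k) := by
      rw [hq, hp]
      push_cast
      field_simp
      norm_num
    rw [← c9]
    apply mul_le_mul_of_nonneg_right hXc
    positivity
  set Ms := X.filter fun x => x ∈ M ∧ (good x false M ∧ good x true M) with hMs
  have hMsc : (h : ℝ) / (50 * k) ≤ Ms.card := by
    have := hM2.trans hM
    rw [sum_boole] at this
    exact this
  have hMsX : ∀ x ∈ Ms, x ∈ X := fun x hx => (mem_filter.1 hx).1
  have hXf : ∀ x ∈ X, x ∈ full := fun x hx => (mem_filter.1 hx).1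
  have hXK : ∀ x ∈ X, rk (x, β x) < K := by
    intro x hx
    have := hXf x hx
    rw [hfull, mem_filter] at this
    cases β x
    · exact this.2.1
    · exact this.2.2
  obtain ⟨s, s1, s2, s3, s4⟩ := exists_sorted pos Ms (by
    intro a ha b hb hab
    have c1 := hXK a (hMsX a ha)
    rw [← hposβ a, ← hposβ b] at hab
    exact (Prod.ext_iff.1 (a3 _ _ c1 hab)).1)
  refine ⟨τ, pos, s, s1, s4, by rw [s3]; exact hMsc, ?_⟩
  rw [s2]
  intro D hD y hy hlow σ
  have hyMs := hD hy
  rw [hMs, mem_filter] at hyMs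
  have hgy : good y σ M := by
    cases σ
    · exact hyMs.2.2.1
    · exact hyMs.2.2.2
  have hsub : D.erase y ⊆ M ∩ Y y σ := by
    intro z hz
    have hzD := mem_of_mem_erase hz
    have hzy := ne_of_mem_erase hz
    have hzMs := hD hzD
    rw [hMs, mem_filter] at hzMs
    refine mem_inter.2 ⟨hzMs.2.1, ?_⟩
    rw [hY]
    refine mem_erase.2 ⟨hzy, ?_⟩
    have hzX := hzMs.1
    rw [hX, mem_filter] at hzX
    unfold act aft
    rw [mem_filter, mem_filter]
    refine ⟨mem_univ z, mem_univ _, ?_⟩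
    rw [hzX.2.1, hposβ z]
    exact (hposge y σ).trans_lt (hlow z hzD hzy)
  obtain ⟨S, hS, hpk, hSD⟩ := hgy (D.erase y) hsub
  refine ⟨insert y S, ?_, hpk⟩
  ext z
  rw [mem_inter, mem_insert]
  by_cases hzy : z = y
  · subst hzy
    exact ⟨fun _ => hy, fun _ => ⟨Or.inl rfl, hD hy⟩⟩
  · constructor
    · rintro ⟨c1, c2⟩
      have c3 := c1.resolve_left hzy
      rw [hMs, mem_filter] at c2
      have c4 : z ∈ S ∩ (M ∩ Y y σ) := mem_inter.2 ⟨c3, mem_inter.2 ⟨c2.2.1, hS c3⟩⟩
      rw [hSD] at c4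
      exact mem_of_mem_erase c4
    · intro c1
      have c2 : z ∈ D.erase y := mem_erase.2 ⟨hzy, c1⟩
      rw [← hSD] at c2
      exact ⟨Or.inr (mem_inter.1 c2).1, hD c1⟩

/-- **Long paths.** -/
theorem exists_long (R : Finset (Fin n) → (Fin n → Bool) → Fin n)
    (hR : ∀ (S : Finset (Fin n)) (x : Fin n → Bool), S.Nonempty → R S x ∈ S)
    (hloc : ∀ (S : Finset (Fin n)) (x x' : Fin n → Bool), (∀ i ∈ S, x i = x' i) → R S x = R S x')
    (h k : ℕ) (hh : 8 ≤ h) (hn : 320 * h ^ 4 ≤ n) (hk : 1 ≤ k) (hhk : 8 * h ≤ 2 ^ k) :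
    ∃ f : (Fin n → Bool) → ℕ, Function.Injective f ∧ Combed f ∧
      ∃ (L : ℕ) (v : ℕ → (Fin n → Bool)),
        (∀ k < L, (improving f (v k)).Nonempty ∧
          v (k + 1) = flip (v k) (R (improving f (v k)) (v k))) ∧
        improving f (v L) = ∅ ∧ (2 : ℝ) ^ ((h : ℝ) / (100 * k)) ≤ L + 1 := by
  obtain ⟨τ, pos, s, s1, s2, s3, s4⟩ := exists_osteer R hR hloc h k hh hn hk hhk
  obtain ⟨f, f1, f2, v, _, v1, v2⟩ := exists_ocube R hloc τ pos s s1 s2 s4
  refine ⟨f, f1, f2, _, v, v1, v2, ?_⟩
  have hkr : (1 : ℝ) ≤ k := by exact_mod_cast hk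
  have e1 : (2 : ℝ) ^ (s.length : ℝ) ≤ ((Tlen s.length : ℝ) + 1) ^ 2 := by
    rw [Real.rpow_natCast]
    exact_mod_cast Tlen_ge s.length
  have e2 : ((2 : ℝ) ^ ((h : ℝ) / (100 * k))) ^ 2 ≤ ((Tlen s.length : ℝ) + 1) ^ 2 := by
    refine le_trans ?_ e1
    rw [← Real.rpow_natCast, ← Real.rpow_mul (by norm_num)]
    apply Real.rpow_le_rpow_of_exponent_le (by norm_num)
    refine le_trans (le_of_eq ?_) s3
    push_cast
    field_simp
    norm_num
  exact (sq_le_sq₀ (by positivity) (by positivity)).1 e2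

end Pool.Agent.H454R3
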