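import Pool.Agent.H454R3.OSel
set_option autoImplicit false

/-!
# Layers of popular oriented elements
-/

namespace Pool.Agent.H454R3

open Finset

variable {n : ℕ}

/-- the sign vector of a set -/
def sg (A : Finset (Fin n)) : Fin n → Bool := fun i => decide (i ∈ A)

/-- the active coordinates -/
def act (N : Finset (Fin n × Bool)) (τ : Fin n → Bool) : Finset (Fin n) :=
  univ.filter fun y => (y, τ y) ∈ N

/-- the ground set for the coordinate `x` -/
def grd (N : Finset (Fin n × Bool)) (τ : Fin n → Bool) (x : Fin n) : Finset (Fin n) :=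
  (act N τ).erase x

/-- the event that the rule picks `x` -/
def Pk (R : Finset (Fin n) → (Fin n → Bool) → Fin n) (x : Fin n) (σ : Bool) (τ : Fin n → Bool)
    (S : Finset (Fin n)) : Prop := R (insert x S) (Function.update τ x σ) = x

/-- popularity -/
noncomputable def G (R : Finset (Fin n) → (Fin n → Bool) → Fin n) (p : ℝ)
    (N : Finset (Fin n × Bool)) (x : Fin n) (σ : Bool) (τ : Fin n → Bool) : ℝ :=
  Pr p (grd N τ x) (Pk R x σ τ)

lemma grd_congr (N : Finset (Fin n × Bool)) (x : Fin n) (τ τ' : Fin n → Bool)
    (h : ∀ i, i ≠ x → τ i = τ' i) : grd N τ x = grd N τ' x := by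
  unfold grd act
  ext y
  simp only [mem_erase, mem_filter, mem_univ, true_and]
  constructor
  · rintro ⟨a, b⟩; exact ⟨a, by rw [← h y a]; exact b⟩
  · rintro ⟨a, b⟩; exact ⟨a, by rw [h y a]; exact b⟩

lemma update_congr' (x : Fin n) (σ : Bool) (τ τ' : Fin n → Bool)
    (h : ∀ i, i ≠ x → τ i = τ' i) : Function.update τ x σ = Function.update τ' x σ := by
  funext i
  by_cases hi : i = x
  · rw [hi, Function.update_self, Function.update_self]
  · rw [Function.update_of_ne hi, Function.update_of_ne hi, h i hi]

lemma G_congr (R : Finset (Fin n) → (Fin n → Bool) → Fin n) (p : ℝ)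
    (N : Finset (Fin n × Bool)) (x : Fin n) (σ : Bool) (τ τ' : Fin n → Bool)
    (h : ∀ i, i ≠ x → τ i = τ' i) : G R p N x σ τ = G R p N x σ τ' := by
  unfold G Pk
  rw [grd_congr N x τ τ' h, update_congr' x σ τ τ' h]

lemma sg_insert_ne (x : Fin n) (A : Finset (Fin n)) :
    ∀ i, i ≠ x → sg (insert x A) i = sg A i := by
  intro i hi
  simp [sg, hi]

lemma G_lip (R : Finset (Fin n) → (Fin n → Bool) → Fin n)
    (hloc : ∀ (S : Finset (Fin n)) (x x' : Fin n → Bool), (∀ i ∈ S, x i = x' i) → R S x = R S x')
    {p : ℝ} (h0 : 0 ≤ p) (h1 : p ≤ 1)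
    (N : Finset (Fin n × Bool)) (x : Fin n) (σ : Bool) (τ τ' : Fin n → Bool) (y : Fin n)
    (h : ∀ i, i ≠ y → τ i = τ' i) : |G R p N x σ τ - G R p N x σ τ'| ≤ p := by
  by_cases hxy : y = x
  · subst hxy
    rw [G_congr R p N y σ τ τ' h, sub_self, abs_zero]
    exact h0
  · have e1 : (grd N τ x).erase y = (grd N τ' x).erase y := by
      unfold grd act
      ext z
      simp only [mem_erase, mem_filter, mem_univ, true_and]
      constructor
      · rintro ⟨a, b, c⟩; exact ⟨a, b, by rw [← h z a]; exact c⟩
      · rintro ⟨a, b, c⟩; exact ⟨a, b, by rw [h z a]; exact c⟩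
    have e2 : Pr p ((grd N τ x).erase y) (Pk R x σ τ) =
        Pr p ((grd N τ x).erase y) (Pk R x σ τ') := by
      refine Pr_congr fun S hS => ?_
      unfold Pk
      rw [hloc (insert x S) (Function.update τ x σ) (Function.update τ' x σ)]
      intro i hi
      by_cases hix : i = x
      · rw [hix, Function.update_self, Function.update_self]
      · have hiy : i ≠ y := by
          rintro rfl
          rcases mem_insert.1 hi with h3 | h3
          · exact hix h3
          · exact notMem_erase i _ (hS h3)
        rw [Function.update_of_ne hix, Function.update_of_ne hix, h i hiy]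
    have e3 := Pr_between h0 h1 (grd N τ x) y (Pk R x σ τ)
    have e4 := Pr_between h0 h1 (grd N τ' x) y (Pk R x σ τ')
    rw [← e1, ← e2] at e4
    unfold G
    rw [abs_le]
    constructor <;> linarith [e3.1, e3.2, e4.1, e4.2]

lemma pow_le_half {p : ℝ} (h0 : 0 ≤ p) (h1 : p ≤ 1) {m : ℕ} (h : 1 ≤ p * m) :
    (1 - p) ^ m ≤ 1 / 2 := by
  have e1 : 1 + (m : ℝ) * p ≤ (1 + p) ^ m := one_add_mul_le_pow (by linarith) m
  have e2 : (1 - p) ^ m * (1 + p) ^ m ≤ 1 := by
    rw [← mul_pow]
    apply pow_le_one₀
    · nlinarith
    · nlinarith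
  have e3 : 0 ≤ (1 - p) ^ m := pow_nonneg (by linarith) m
  have e4 : (1 - p) ^ m * 2 ≤ (1 - p) ^ m * (1 + p) ^ m := by
    apply mul_le_mul_of_nonneg_left _ e3
    linarith
  linarith

/-- a popular oriented element -/
lemma exists_popular2 (R : Finset (Fin n) → (Fin n → Bool) → Fin n)
    (hR : ∀ (S : Finset (Fin n)) (x : Fin n → Bool), S.Nonempty → R S x ∈ S)
    {p : ℝ} (h0 : 0 < p) (h1 : p ≤ 1) (N : Finset (Fin n × Bool)) {m : ℕ} (hm : 2 * m ≤ N.card)
    (hpm : 1 ≤ p * m) :
    ∃ e ∈ N, 1 / (2 * p * N.card) ≤
      Ex (1 / 2) univ (fun A => G R p N e.1 e.2 (sg A)) := by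
  classical
  -- the expected probability of a nonempty set
  have e1 : ∀ τ : Fin n → Bool, ∑ e ∈ N, (if τ e.1 = e.2 then p * G R p N e.1 e.2 τ else 0) =
      1 - (1 - p) ^ (act N τ).card := by
    intro τ
    rw [← sum_pop p (act N τ) (fun S => R S τ) fun S hS => hR S τ hS, ← sum_filter]
    symm
    refine sum_nbij' (fun x => (x, τ x)) (fun e => e.1) ?_ ?_ ?_ ?_ ?_
    · intro x hx
      simp only [act, mem_filter, mem_univ, true_and] at hx
      simp [hx]
    · intro e he
      simp only [mem_filter] at he
      simp only [act, mem_filter, mem_univ, true_and]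
      rw [he.2]
      exact he.1
    · intro x _; rfl
    · intro e he
      simp only [mem_filter] at he
      exact Prod.ext rfl he.2
    · intro x _
      have : Pk R x (τ x) τ = fun S => R (insert x S) τ = x := by
        funext S
        unfold Pk
        rw [Function.update_eq_self]
      simp only [G, grd, this]
  have e2 : ∀ A : Finset (Fin n), 1 / 2 ≤ (1 - (1 - p) ^ (act N (sg A)).card) +
      (1 - (1 - p) ^ (act N (sg (univ \ A))).card) := by
    intro A
    have hc : N.card ≤ (act N (sg A)).card + (act N (sg (univ \ A))).card := by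
      have h3 : N ⊆ (act N (sg A)).image (fun y => (y, sg A y)) ∪
          (act N (sg (univ \ A))).image (fun y => (y, sg (univ \ A) y)) := by
        intro e he
        rw [mem_union, mem_image, mem_image]
        by_cases h4 : sg A e.1 = e.2
        · left
          refine ⟨e.1, ?_, Prod.ext rfl h4⟩
          simp only [act, mem_filter, mem_univ, true_and]
          rw [h4]; exact he
        · right
          have h5 : sg (univ \ A) e.1 = e.2 := by
            have h6 : sg (univ \ A) e.1 = !sg A e.1 := by
              simp [sg]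
            rw [h6]
            revert h4
            cases sg A e.1 <;> cases e.2 <;> simp
          refine ⟨e.1, ?_, Prod.ext rfl h5⟩
          simp only [act, mem_filter, mem_univ, true_and]
          rw [h5]; exact he
      refine (card_le_card h3).trans ((card_union_le _ _).trans ?_)
      exact Nat.add_le_add card_image_le card_image_le
    have h7 : ∀ a : ℕ, (1 - p) ^ a ≤ 1 := fun a => pow_le_one₀ (by linarith) (by linarith)
    have h8 : ∀ a : ℕ, m ≤ a → (1 - p) ^ a ≤ 1 / 2 := fun a ha =>
      (pow_le_pow_of_le_one (by linarith) (by linarith) ha).trans (pow_le_half h0.le h1 hpm)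
    have h9 : m ≤ (act N (sg A)).card ∨ m ≤ (act N (sg (univ \ A))).card := by omega
    rcases h9 with h | h
    · have := h8 _ h
      have := h7 (act N (sg (univ \ A))).card
      linarith
    · have := h8 _ h
      have := h7 (act N (sg A)).card
      linarith
  have e3 : 1 / 4 ≤ Ex (1 / 2) univ (fun A : Finset (Fin n) => 1 - (1 - p) ^ (act N (sg A)).card) := by
    have h3 : Ex (1 / 2) univ (fun A : Finset (Fin n) => (1 - (1 - p) ^ (act N (sg A)).card) +
        (1 - (1 - p) ^ (act N (sg (univ \ A))).card)) =
        2 * Ex (1 / 2) univ (fun A : Finset (Fin n) => 1 - (1 - p) ^ (act N (sg A)).card) := by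
      rw [Ex_add, Ex_compl univ (fun A : Finset (Fin n) => 1 - (1 - p) ^ (act N (sg A)).card)]
      ring
    have h4 : (1 / 2 : ℝ) ≤ Ex (1 / 2) univ (fun A : Finset (Fin n) =>
        (1 - (1 - p) ^ (act N (sg A)).card) +
        (1 - (1 - p) ^ (act N (sg (univ \ A))).card)) := by
      refine le_trans (Ex_const (1 / 2) (univ : Finset (Fin n)) (1 / 2)).ge ?_
      exact Ex_mono (by norm_num) (by norm_num) fun A _ => e2 A
    linarith
  -- expectation of each term
  have e4 : ∀ e : Fin n × Bool, Ex (1 / 2) univ (fun A =>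
      if sg A e.1 = e.2 then p * G R p N e.1 e.2 (sg A) else 0) =
      p / 2 * Ex (1 / 2) univ (fun A => G R p N e.1 e.2 (sg A)) := by
    intro e
    have hu : (univ : Finset (Fin n)) = insert e.1 (univ.erase e.1) :=
      (insert_erase (mem_univ _)).symm
    rw [hu, Ex_insert (notMem_erase _ _), Ex_insert (notMem_erase _ _)]
    have h3 : Ex (1 / 2) (univ.erase e.1) (fun S => G R p N e.1 e.2 (sg (insert e.1 S))) =
        Ex (1 / 2) (univ.erase e.1) (fun S => G R p N e.1 e.2 (sg S)) :=
      Ex_congr fun S _ => G_congr R p N e.1 e.2 _ _ (sg_insert_ne e.1 S)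
    rw [h3]
    rcases hb : e.2 with _ | _
    · have h4 : Ex (1 / 2) (univ.erase e.1) (fun A =>
          if sg A e.1 = false then p * G R p N e.1 false (sg A) else 0) =
          p * Ex (1 / 2) (univ.erase e.1) (fun A => G R p N e.1 false (sg A)) := by
        rw [← Ex_mul_left]
        refine Ex_congr fun S hS => ?_
        have : e.1 ∉ S := fun h => notMem_erase _ _ (hS h)
        rw [if_pos (by simp [sg, this])]
      have h5 : Ex (1 / 2) (univ.erase e.1) (fun A =>
          if sg (insert e.1 A) e.1 = false then p * G R p N e.1 false (sg (insert e.1 A)) else 0)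
          = 0 := by
        refine (Ex_congr fun S _ => ?_).trans (Ex_const _ _ 0)
        rw [if_neg (by simp [sg])]
      rw [h4, h5]
      ring
    · have h4 : Ex (1 / 2) (univ.erase e.1) (fun A =>
          if sg A e.1 = true then p * G R p N e.1 true (sg A) else 0) = 0 := by
        refine (Ex_congr fun S hS => ?_).trans (Ex_const _ _ 0)
        have : e.1 ∉ S := fun h => notMem_erase _ _ (hS h)
        rw [if_neg (by simp [sg, this])]
      have h5 : Ex (1 / 2) (univ.erase e.1) (fun A =>
          if sg (insert e.1 A) e.1 = true then p * G R p N e.1 true (sg (insert e.1 A)) else 0)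
          = p * Ex (1 / 2) (univ.erase e.1) (fun A => G R p N e.1 true (sg A)) := by
        rw [← Ex_mul_left]
        refine Ex_congr fun S _ => ?_
        rw [if_pos (by simp [sg]), G_congr R p N e.1 true _ _ (sg_insert_ne e.1 S)]
      rw [h4, h5]
      ring
  have e5 : ∑ e ∈ N, p / 2 * Ex (1 / 2) univ (fun A => G R p N e.1 e.2 (sg A)) =
      Ex (1 / 2) univ (fun A : Finset (Fin n) => 1 - (1 - p) ^ (act N (sg A)).card) := by
    rw [← sum_congr rfl fun e _ => e4 e, ← Ex_sum]
    exact Ex_congr fun A _ => e1 (sg A)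
  have hNpos : 0 < N.card := by
    rcases Nat.eq_zero_or_pos m with h | h
    · rw [h] at hpm; simp at hpm; linarith
    · omega
  have hNne : N.Nonempty := card_pos.1 hNpos
  by_contra hcon
  push Not at hcon
  have e6 : ∑ e ∈ N, p / 2 * Ex (1 / 2) univ (fun A => G R p N e.1 e.2 (sg A)) <
      ∑ e ∈ N, p / 2 * (1 / (2 * p * N.card)) := by
    apply sum_lt_sum_of_nonempty hNne
    intro e he
    exact mul_lt_mul_of_pos_left (hcon e he) (by positivity)
  rw [e5, sum_const, nsmul_eq_mul] at e6
  have hNr : (0 : ℝ) < N.card := by exact_mod_cast hNpos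
  have e7 : (N.card : ℝ) * (p / 2 * (1 / (2 * p * N.card))) = 1 / 4 := by
    field_simp
    norm_num
  rw [e7] at e6
  linarith

lemma grd_erase (N : Finset (Fin n × Bool)) (τ : Fin n → Bool) (x : Fin n) (σ : Bool) :
    grd (N.erase (x, σ)) τ x = grd N τ x := by
  unfold grd act
  ext y
  simp only [mem_erase, mem_filter, mem_univ, true_and]
  constructor
  · rintro ⟨a, _, c⟩; exact ⟨a, c⟩
  · rintro ⟨a, c⟩
    refine ⟨a, fun h => a ?_, c⟩
    exact (Prod.ext_iff.1 h).1

/-- the elements after `e` -/
def aft (rk : Fin n × Bool → ℕ) (e : Fin n × Bool) : Finset (Fin n × Bool) :=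
  univ.filter fun e' => rk e < rk e'

/-- layering -/
lemma exists_rank (R : Finset (Fin n) → (Fin n → Bool) → Fin n)
    (hR : ∀ (S : Finset (Fin n)) (x : Fin n → Bool), S.Nonempty → R S x ∈ S)
    {p : ℝ} (h0 : 0 < p) (h1 : p ≤ 1) (hn : 4 ≤ n) (hpn : 8 ≤ p * n) (K : ℕ)
    (hK : 2 * K ≤ 3 * n) :
    ∃ rk : Fin n × Bool → ℕ, (∀ e, rk e ≤ K) ∧
      (univ.filter fun e => rk e = K).card + K = 2 * n ∧
      (∀ e e', rk e < K → rk e = rk e' → e = e') ∧
      ∀ e, rk e < K → 1 / (4 * p * n) ≤
        Ex (1 / 2) univ (fun A => G R p (aft rk e) e.1 e.2 (sg A)) := by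
  induction K with
  | zero =>
    refine ⟨fun _ => 0, fun _ => le_rfl, ?_, ?_, ?_⟩
    · simp [mul_comm]
    · intro e e' h; omega
    · intro e h; omega
  | succ K ih =>
    obtain ⟨rk, a1, a2, a3, a4⟩ := ih (by omega)
    set N := univ.filter fun e : Fin n × Bool => rk e = K with hN
    have hNc : n + 1 ≤ 2 * N.card := by omega
    obtain ⟨e₀, he₀, hpop⟩ := exists_popular2 R hR h0 h1 N (m := N.card / 2) (by omega) (by
      have h2 : (n : ℝ) / 8 ≤ ((N.card / 2 : ℕ) : ℝ) := by
        have h3 : n ≤ 8 * (N.card / 2) := by omega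
        have h4 : (n : ℝ) ≤ 8 * ((N.card / 2 : ℕ) : ℝ) := by exact_mod_cast h3
        linarith
      have h5 : p * ((n : ℝ) / 8) ≤ p * ((N.card / 2 : ℕ) : ℝ) :=
        mul_le_mul_of_nonneg_left h2 h0.le
      linarith)
    have hrk0 : rk e₀ = K := by
      rw [hN, mem_filter] at he₀
      exact he₀.2
    have hNle : (N.card : ℝ) ≤ 2 * n := by
      have : N.card ≤ 2 * n := by omega
      exact_mod_cast this
    have hNpos : (0 : ℝ) < N.card := by
      have : 0 < N.card := by omega
      exact_mod_cast this
    classical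
    set rk' : Fin n × Bool → ℕ := fun e => if rk e = K ∧ e ≠ e₀ then K + 1 else rk e with hrk'
    have b1 : ∀ e, rk e < K → rk' e = rk e := by
      intro e he
      rw [hrk']
      simp only
      rw [if_neg]
      omega
    have b2 : rk' e₀ = K := by
      rw [hrk']
      simp only
      rw [if_neg (by simp), hrk0]
    have b3 : ∀ e, rk e = K → e ≠ e₀ → rk' e = K + 1 := by
      intro e h2 h3
      rw [hrk']
      simp only
      rw [if_pos ⟨h2, h3⟩]
    have b4 : ∀ e, rk e < K ∨ e = e₀ ∨ (rk e = K ∧ e ≠ e₀) := by
      intro e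
      have := a1 e
      by_cases h2 : rk e < K
      · exact Or.inl h2
      · by_cases h3 : e = e₀
        · exact Or.inr (Or.inl h3)
        · exact Or.inr (Or.inr ⟨by omega, h3⟩)
    refine ⟨rk', ?_, ?_, ?_, ?_⟩
    · intro e
      rcases b4 e with h | h | h
      · rw [b1 e h]; omega
      · rw [h, b2]; omega
      · rw [b3 e h.1 h.2]
    · have h2 : (univ.filter fun e => rk' e = K + 1) = N.erase e₀ := by
        ext e
        simp only [mem_filter, mem_univ, true_and, mem_erase, hN]
        rcases b4 e with h | h | h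
        · rw [b1 e h]
          constructor
          · intro h3; omega
          · rintro ⟨_, h3⟩; omega
        · rw [h, b2]
          simp
        · rw [b3 e h.1 h.2]
          exact ⟨fun _ => ⟨h.2, h.1⟩, fun _ => rfl⟩
      rw [h2, card_erase_of_mem he₀]
      omega
    · intro e e' he hee
      rcases b4 e with h | h | h
      · rw [b1 e h] at hee
        rcases b4 e' with h' | h' | h'
        · rw [b1 e' h'] at hee
          exact a3 e e' h hee
        · rw [h', b2] at hee; omega
        · rw [b3 e' h'.1 h'.2] at hee; omega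
      · rw [h, b2] at hee
        rcases b4 e' with h' | h' | h'
        · rw [b1 e' h'] at hee; omega
        · rw [h, h']
        · rw [b3 e' h'.1 h'.2] at hee; omega
      · rw [b3 e h.1 h.2] at he; omega
    · intro e he
      rcases b4 e with h | h | h
      · have h2 : aft rk' e = aft rk e := by
          unfold aft
          ext e'
          simp only [mem_filter, mem_univ, true_and]
          rw [b1 e h]
          rcases b4 e' with h' | h' | h'
          · rw [b1 e' h']
          · rw [h', b2, hrk0]
          · rw [b3 e' h'.1 h'.2, h'.1]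
            omega
        rw [h2]
        exact a4 e h
      · have h2 : aft rk' e = N.erase e₀ := by
          unfold aft
          ext e'
          simp only [mem_filter, mem_univ, true_and, mem_erase, hN]
          rw [h, b2]
          rcases b4 e' with h' | h' | h'
          · rw [b1 e' h']
            constructor
            · intro h3; omega
            · rintro ⟨_, h3⟩; omega
          · rw [h', b2]
            simp
          · rw [b3 e' h'.1 h'.2]
            exact ⟨fun _ => ⟨h'.2, h'.1⟩, fun _ => by omega⟩
        rw [h2, h]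
        have h3 : Ex (1 / 2) univ (fun A => G R p (N.erase e₀) e₀.1 e₀.2 (sg A)) =
            Ex (1 / 2) univ (fun A => G R p N e₀.1 e₀.2 (sg A)) := by
          refine Ex_congr fun A _ => ?_
          unfold G
          have := grd_erase N (sg A) e₀.1 e₀.2
          rw [show ((e₀.1, e₀.2) : Fin n × Bool) = e₀ from rfl] at this
          rw [this]
        rw [h3]
        refine le_trans ?_ hpop
        apply one_div_le_one_div_of_le (by positivity)
        nlinarith
      · rw [b3 e h.1 h.2] at he; omega

end Pool.Agent.H454R3
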