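import Pool.Agent.H454R3.Select
set_option autoImplicit false

/-!
# Popularity for rules which see the coordinates of the improving directions
-/

namespace Pool.Agent.H454R3

open Finset

set_option linter.unusedSectionVars false

section General

variable {α : Type*} [DecidableEq α]

lemma Ex_mul_left (p : ℝ) (N : Finset α) (c : ℝ) (f : Finset α → ℝ) :
    Ex p N (fun S => c * f S) = c * Ex p N f := by
  unfold Ex
  rw [mul_sum]
  exact sum_congr rfl fun S _ => by ring

lemma Pr_congr {p : ℝ} {N : Finset α} {P Q : Finset α → Prop}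
    (h : ∀ S ⊆ N, (P S ↔ Q S)) : Pr p N P = Pr p N Q := by
  classical
  unfold Pr
  exact Ex_congr fun S hS => by simp only [h S hS]

lemma Pr_between {p : ℝ} (h0 : 0 ≤ p) (h1 : p ≤ 1) (Y : Finset α) (y : α)
    (g : Finset α → Prop) : (1 - p) * Pr p (Y.erase y) g ≤ Pr p Y g ∧
      Pr p Y g ≤ (1 - p) * Pr p (Y.erase y) g + p := by
  by_cases hy : y ∈ Y
  · have h2 : Pr p Y g = (1 - p) * Pr p (Y.erase y) g +
        p * Pr p (Y.erase y) (fun S => g (insert y S)) := by
      conv_lhs => rw [← insert_erase hy]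
      exact Pr_insert (notMem_erase y Y) p g
    have h3 := Pr_nonneg h0 h1 (Y.erase y) (fun S => g (insert y S))
    have h4 := Pr_le_one h0 h1 (Y.erase y) (fun S => g (insert y S))
    rw [h2]
    constructor
    · nlinarith
    · nlinarith
  · rw [erase_eq_of_notMem hy]
    have h3 := Pr_nonneg h0 h1 Y g
    have h4 := Pr_le_one h0 h1 Y g
    constructor <;> nlinarith

/-- complementation does not change the uniform measure -/
lemma Ex_compl (N : Finset α) (f : Finset α → ℝ) :
    Ex (1 / 2) N (fun A => f (N \ A)) = Ex (1 / 2) N f := by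
  induction N using Finset.induction_on generalizing f with
  | empty => simp [Ex_empty]
  | insert x N hx ih =>
    rw [Ex_insert hx, Ex_insert hx]
    have h1 : Ex (1 / 2) N (fun A => f (insert x N \ A)) = Ex (1 / 2) N (fun A => f (insert x A)) := by
      rw [← ih (fun A => f (insert x A))]
      refine Ex_congr fun S hS => ?_
      rw [insert_sdiff_of_notMem N fun h => hx (hS h)]
    have h2 : Ex (1 / 2) N (fun A => f (insert x N \ insert x A)) = Ex (1 / 2) N f := by
      rw [← ih f]
      refine Ex_congr fun S hS => ?_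
      congr 1
      ext y
      simp only [mem_sdiff, mem_insert]
      constructor
      · rintro ⟨h3, h4⟩
        push Not at h4
        exact ⟨h3.resolve_left h4.1, h4.2⟩
      · rintro ⟨h3, h4⟩
        refine ⟨Or.inr h3, ?_⟩
        push Not
        exact ⟨fun h => hx (h ▸ h3), h4⟩
    rw [h1, h2]
    ring

/-- variance of a function with small differences -/
lemma var_le (N : Finset α) (c : ℝ) (f : Finset α → ℝ)
    (h : ∀ x ∈ N, ∀ A ⊆ N, x ∉ A → |f (insert x A) - f A| ≤ c) :
    Ex (1 / 2) N (fun A => f A ^ 2) - Ex (1 / 2) N f ^ 2 ≤ N.card * c ^ 2 / 4 := by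
  induction N using Finset.induction_on generalizing f with
  | empty => simp [Ex_empty]
  | insert x N hx ih =>
    rw [Ex_insert hx, Ex_insert hx, card_insert_of_notMem hx]
    have e1 := ih f fun y hy A hA hyA =>
      h y (mem_insert_of_mem hy) A (hA.trans (subset_insert x N)) hyA
    have e2 := ih (fun A => f (insert x A)) fun y hy A hA hyA => by
      have hyx : y ≠ x := fun h => hx (h ▸ hy)
      have := h y (mem_insert_of_mem hy) (insert x A) (insert_subset_insert x hA)
        (by simp [hyx, hyA])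
      rwa [insert_comm] at this
    have e3 : |Ex (1 / 2) N (fun A => f (insert x A)) - Ex (1 / 2) N f| ≤ c := by
      have e4 : Ex (1 / 2) N (fun A => f (insert x A)) ≤ Ex (1 / 2) N f + c := by
        rw [← Ex_const (1 / 2) N c, ← Ex_add]
        refine Ex_mono (by norm_num) (by norm_num) fun S hS => ?_
        have := (abs_le.1 (h x (mem_insert_self x N) S (hS.trans (subset_insert x N))
          fun h => hx (hS h))).2
        linarith
      have e5 : Ex (1 / 2) N f ≤ Ex (1 / 2) N (fun A => f (insert x A)) + c := by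
        rw [← Ex_const (1 / 2) N c, ← Ex_add]
        refine Ex_mono (by norm_num) (by norm_num) fun S hS => ?_
        have := (abs_le.1 (h x (mem_insert_self x N) S (hS.trans (subset_insert x N))
          fun h => hx (hS h))).1
        linarith
      rw [abs_le]
      constructor <;> linarith
    have e6 : (Ex (1 / 2) N (fun A => f (insert x A)) - Ex (1 / 2) N f) ^ 2 ≤ c ^ 2 := by
      rw [← sq_abs]
      exact pow_le_pow_left₀ (abs_nonneg _) e3 2
    push_cast
    nlinarith

/-- Chebyshev -/
lemma cheb (N : Finset α) (c δ : ℝ) (hδ : 0 < δ) (f : Finset α → ℝ)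
    (h : ∀ x ∈ N, ∀ A ⊆ N, x ∉ A → |f (insert x A) - f A| ≤ c) (hf : δ ≤ Ex (1 / 2) N f) :
    Pr (1 / 2) N (fun A => ¬ δ / 2 ≤ f A) ≤ N.card * c ^ 2 / δ ^ 2 := by
  classical
  have e1 := var_le N c f h
  set μ := Ex (1 / 2) N f with hμ
  have e2 : Ex (1 / 2) N (fun A => (f A - μ) ^ 2) = Ex (1 / 2) N (fun A => f A ^ 2) - μ ^ 2 := by
    have : Ex (1 / 2) N (fun A => (f A - μ) ^ 2) =
        Ex (1 / 2) N (fun A => (f A ^ 2 + (-2 * μ) * f A) + μ ^ 2) :=
      Ex_congr fun A _ => by ring
    rw [this, Ex_add, Ex_add, Ex_mul_left, Ex_const, ← hμ]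
    ring
  have e3 : (δ / 2) ^ 2 * Pr (1 / 2) N (fun A => ¬ δ / 2 ≤ f A) ≤
      Ex (1 / 2) N (fun A => (f A - μ) ^ 2) := by
    unfold Pr
    rw [← Ex_mul_left]
    refine Ex_mono (by norm_num) (by norm_num) fun S _ => ?_
    split_ifs with h1
    · rw [mul_one]
      have h1' : f S < δ / 2 := not_le.1 h1
      have : δ / 2 ≤ μ - f S := by linarith
      have h2 : (f S - μ) ^ 2 = (μ - f S) ^ 2 := by ring
      rw [h2]
      exact pow_le_pow_left₀ (by linarith) this 2
    · rw [mul_zero]; positivity
  rw [le_div_iff₀ (by positivity)]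
  nlinarith

lemma Pr_and_mem (q : ℝ) {N : Finset α} {x : α} (hx : x ∈ N) (P : Finset α → Prop)
    (hP : ∀ S : Finset α, (P (insert x S) ↔ P S)) :
    Pr q N (fun M => x ∈ M ∧ P M) = q * Pr q N P := by
  have h1 : Pr q N (fun M => x ∈ M ∧ P M) = q * Pr q (N.erase x) P := by
    conv_lhs => rw [← insert_erase hx]
    rw [Pr_insert (notMem_erase x N)]
    have h2 : Pr q (N.erase x) (fun S => x ∈ S ∧ P S) = 0 := by
      unfold Pr
      refine (Ex_congr fun S hS => ?_).trans (Ex_const q (N.erase x) 0)
      rw [if_neg]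
      intro h
      exact notMem_erase x N (hS h.1)
    rw [h2]
    simp [hP]
  have h3 : Pr q N P = Pr q (N.erase x) P := by
    conv_lhs => rw [← insert_erase hx]
    rw [Pr_insert (notMem_erase x N)]
    simp only [hP]
    ring
  rw [h1, h3]

lemma Pr_and_notMem (q : ℝ) {N : Finset α} {x : α} (hx : x ∈ N) (P : Finset α → Prop)
    (hP : ∀ S : Finset α, (P (insert x S) ↔ P S)) :
    Pr q N (fun M => x ∉ M ∧ P M) = (1 - q) * Pr q N P := by
  have h1 : Pr q N (fun M => x ∉ M ∧ P M) = (1 - q) * Pr q (N.erase x) P := by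
    conv_lhs => rw [← insert_erase hx]
    rw [Pr_insert (notMem_erase x N)]
    have h2 : Pr q (N.erase x) (fun S => x ∉ insert x S ∧ P (insert x S)) = 0 := by
      unfold Pr
      refine (Ex_congr fun S hS => ?_).trans (Ex_const q (N.erase x) 0)
      rw [if_neg]
      intro h
      exact h.1 (mem_insert_self x S)
    rw [h2]
    have h4 : Pr q (N.erase x) (fun S => x ∉ S ∧ P S) = Pr q (N.erase x) P := by
      refine Pr_congr fun S hS => ?_
      have : x ∉ S := fun h => notMem_erase x N (hS h)
      simp [this]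
    rw [h4]
    ring
  have h3 : Pr q N P = Pr q (N.erase x) P := by
    conv_lhs => rw [← insert_erase hx]
    rw [Pr_insert (notMem_erase x N)]
    simp only [hP]
    ring
  rw [h1, h3]

lemma Ex_inter (q : ℝ) (N : Finset α) : ∀ (Y : Finset α), Y ⊆ N → ∀ g : Finset α → ℝ,
    Ex q N (fun M => g (M ∩ Y)) = Ex q Y g := by
  induction N using Finset.induction_on with
  | empty =>
    intro Y hY g
    rw [subset_empty.1 hY, Ex_empty, Ex_empty]; simp
  | insert x N hx ih =>
    intro Y hY g
    rw [Ex_insert hx]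
    by_cases hxY : x ∈ Y
    · have hY' : Y.erase x ⊆ N := by
        intro y hy
        exact (mem_insert.1 (hY (mem_of_mem_erase hy))).resolve_left (ne_of_mem_erase hy)
      have h1 : Ex q N (fun M => g (M ∩ Y)) = Ex q (Y.erase x) g := by
        rw [← ih (Y.erase x) hY' g]
        refine Ex_congr fun S hS => ?_
        congr 1
        ext y
        simp only [mem_inter, mem_erase]
        constructor
        · rintro ⟨a, b⟩
          exact ⟨a, fun h => hx (hS (h ▸ a)), b⟩
        · rintro ⟨a, _, b⟩
          exact ⟨a, b⟩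
      have h2 : Ex q N (fun M => g (insert x M ∩ Y)) = Ex q (Y.erase x) (fun S => g (insert x S)) := by
        rw [← ih (Y.erase x) hY' (fun S => g (insert x S))]
        refine Ex_congr fun S hS => ?_
        congr 1
        ext y
        simp only [mem_inter, mem_erase, mem_insert]
        constructor
        · rintro ⟨a, b⟩
          by_cases hyx : y = x
          · exact Or.inl hyx
          · exact Or.inr ⟨a.resolve_left hyx, hyx, b⟩
        · rintro (a | ⟨a, _, b⟩)
          · exact ⟨Or.inl a, a ▸ hxY⟩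
          · exact ⟨Or.inr a, b⟩
      rw [h1, h2]
      conv_rhs => rw [← insert_erase hxY]
      rw [Ex_insert (notMem_erase x Y)]
    · have hY' : Y ⊆ N := by
        intro y hy
        exact (mem_insert.1 (hY hy)).resolve_left fun h => hxY (h ▸ hy)
      have h2 : Ex q N (fun M => g (insert x M ∩ Y)) = Ex q N (fun M => g (M ∩ Y)) := by
        refine Ex_congr fun S _ => ?_
        rw [insert_inter_of_notMem hxY]
      rw [h2, ih Y hY' g]
      ring

lemma Pr_inter (q : ℝ) {N Y : Finset α} (hY : Y ⊆ N) (P : Finset α → Prop) :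
    Pr q N (fun M => P (M ∩ Y)) = Pr q Y P := by
  classical
  have := Ex_inter q N Y hY (fun S => if P S then (1 : ℝ) else 0)
  unfold Pr
  convert this using 3

/-- union bound -/
lemma Pr_and_ge {p : ℝ} (h0 : 0 ≤ p) (h1 : p ≤ 1) (N : Finset α) (P Q : Finset α → Prop) :
    Pr p N P + Pr p N Q - 1 ≤ Pr p N (fun S => P S ∧ Q S) := by
  have := Pr_or_add_and p N P Q
  have h2 := Pr_le_one h0 h1 N (fun S => P S ∨ Q S)
  linarith

lemma Pr_not (p : ℝ) (N : Finset α) (P : Finset α → Prop) :
    Pr p N P + Pr p N (fun S => ¬ P S) = 1 := by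
  classical
  unfold Pr
  rw [← Ex_add]
  refine (Ex_congr fun S _ => ?_).trans (Ex_const p N 1)
  by_cases h : P S <;> simp [h]

/-- a dense family shatters almost all sparse random sets -/
theorem shat_nine {p : ℝ} (h0 : 0 ≤ p) (h1 : p ≤ 1 / 2) {k : ℕ} (hk : 1 ≤ k) (N : Finset α)
    (F : Finset α → Prop) (hF : (1 / 2 : ℝ) ^ k ≤ Pr p N F) :
    9 / 10 ≤ Pr (p / (8 * k : ℕ)) N (Shat N F) := by
  have h2 := (hF.trans (pajor h0 h1 N F)).trans
    (Pr_pow_ge h0 (by linarith) (show 1 ≤ 8 * k by omega) N (Shat N F) fun A B h hB => hB.mono h)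
  by_contra h
  push Not at h
  have hk' : (1 : ℝ) ≤ (8 * k : ℕ) := by exact_mod_cast (show 1 ≤ 8 * k by omega)
  have hq0 : 0 ≤ p / (8 * k : ℕ) := by positivity
  have hq1 : p / (8 * k : ℕ) ≤ 1 := by
    rw [div_le_one (by linarith)]
    linarith
  have h3 := pow_lt_pow_left₀ h (Pr_nonneg hq0 hq1 N (Shat N F)) (n := 8 * k) (by omega)
  have h4 : ((9 / 10 : ℝ)) ^ (8 * k) ≤ (1 / 2) ^ k := by
    rw [pow_mul]
    exact pow_le_pow_left₀ (by positivity) (by norm_num) k
  linarith

/-- a finite set can be listed by decreasing position -/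
lemma exists_sorted (pos : α → ℕ) (M : Finset α)
    (h : ∀ a ∈ M, ∀ b ∈ M, pos a = pos b → a = b) :
    ∃ s : List α, s.Nodup ∧ s.toFinset = M ∧ s.length = M.card ∧
      s.Pairwise (fun a b => pos b < pos a) := by
  induction hn : M.card generalizing M with
  | zero =>
    rw [card_eq_zero] at hn
    exact ⟨[], by simp [hn]⟩
  | succ m ih =>
    have hne : M.Nonempty := by rw [← card_pos]; omega
    obtain ⟨a, ha, hmax⟩ := exists_max_image M pos hne
    obtain ⟨s, h1, h2, h3, h4⟩ := ih (M.erase a)
      (fun x hx y hy hxy => h x (mem_of_mem_erase hx) y (mem_of_mem_erase hy) hxy)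
      (by rw [card_erase_of_mem ha]; omega)
    refine ⟨a :: s, ?_, ?_, ?_, ?_⟩
    · refine List.nodup_cons.2 ⟨fun h5 => ?_, h1⟩
      have : a ∈ s.toFinset := List.mem_toFinset.2 h5
      rw [h2] at this
      exact notMem_erase a M this
    · rw [List.toFinset_cons, h2, insert_erase ha]
    · rw [List.length_cons, h3]
    · refine List.pairwise_cons.2 ⟨fun b hb => ?_, h4⟩
      have hb2 : b ∈ M.erase a := by rw [← h2]; exact List.mem_toFinset.2 hb
      have h5 := hmax b (mem_of_mem_erase hb2)
      have h6 : pos b ≠ pos a := fun h7 =>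
        (ne_of_mem_erase hb2) (h b (mem_of_mem_erase hb2) a ha h7)
      omega

end General

end Pool.Agent.H454R3
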