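import Pool.Agent.H454R3.Tri
set_option autoImplicit false

/-!
# A cube with a long walk for rules which see the coordinates of the improving directions

`τ` is the state in which elements wait; the other state is only used for resetting.
-/

namespace Pool.Agent.H454R3

open Finset

variable {n : ℕ}

/-- modes of the orientation -/
inductive Mode : Type
  | walk
  | reset
  | down

/-- the orientation: the element `z` is improving iff `x z = cm τ mode s z x` -/
def cm (τ : Fin n → Bool) : Mode → List (Fin n) → Fin n → (Fin n → Bool) → Bool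
  | _, [], z, _ => τ z
  | .down, _ :: _, z, _ => τ z
  | .reset, f :: F, z, x =>
    if z = f then !τ f else if x f = τ f then cm τ .reset F z x else τ z
  | .walk, [_], z, _ => τ z
  | .walk, d :: e :: F, z, x =>
    if z = d then τ d
    else if z = e then (if x d = τ d then !τ e else τ e)
    else if x d ≠ τ d ∧ x e = τ e then cm τ .reset F z x else cm τ .walk F z x

/-- the improving set -/
def imp (τ : Fin n → Bool) (m : Mode) (s : List (Fin n)) (x : Fin n → Bool) : Finset (Fin n) :=
  s.toFinset.filter fun z => x z = cm τ m s z x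

lemma imp_nil (τ : Fin n → Bool) (m : Mode) (x : Fin n → Bool) : imp τ m [] x = ∅ := by
  simp [imp]

/-- all elements in state `¬ τ` -/
lemma imp_down_a (τ : Fin n → Bool) (s : List (Fin n)) (x : Fin n → Bool)
    (h : ∀ z ∈ s, x z = !τ z) : imp τ .down s x = ∅ := by
  unfold imp
  rw [filter_eq_empty_iff]
  intro z hz
  have h1 := h z (List.mem_toFinset.1 hz)
  have h2 : cm τ .down s z x = τ z := by
    cases s <;> rfl
  rw [h1, h2]
  cases τ z <;> simp

lemma imp_reset_cons_b (τ : Fin n → Bool) (f : Fin n) (F : List (Fin n)) (x : Fin n → Bool)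
    (hf : f ∉ F) (hx : x f = τ f) : imp τ .reset (f :: F) x = imp τ .reset F x := by
  unfold imp
  ext z
  simp only [mem_filter, List.mem_toFinset, List.mem_cons]
  by_cases hz : z = f
  · subst hz
    have : ¬ x z = cm τ .reset (z :: F) z x := by
      rw [cm, if_pos rfl, hx]
      cases τ z <;> simp
    simp [this, hf]
  · rw [cm, if_neg hz, if_pos hx]
    simp [hz]

lemma imp_reset_cons_a (τ : Fin n → Bool) (f : Fin n) (F : List (Fin n)) (x : Fin n → Bool)
    (hf : f ∉ F) (hx : x f = !τ f) : imp τ .reset (f :: F) x = insert f (imp τ .down F x) := by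
  have hne : ¬ x f = τ f := by rw [hx]; cases τ f <;> simp
  unfold imp
  ext z
  simp only [mem_filter, List.mem_toFinset, List.mem_cons, mem_insert]
  by_cases hz : z = f
  · subst hz
    have : x z = cm τ .reset (z :: F) z x := by
      rw [cm, if_pos rfl, hx]
    simp [this]
  · have h2 : cm τ .down F z x = τ z := by
      cases F <;> rfl
    rw [cm, if_neg hz, if_neg hne, h2]
    simp [hz]

lemma imp_reset_b (τ : Fin n → Bool) (s : List (Fin n)) (hs : s.Nodup) (x : Fin n → Bool)
    (h : ∀ z ∈ s, x z = τ z) : imp τ .reset s x = ∅ := by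
  induction s with
  | nil => exact imp_nil τ _ x
  | cons f F ih =>
    rw [imp_reset_cons_b τ f F x (List.nodup_cons.1 hs).1 (h f List.mem_cons_self)]
    exact ih (List.nodup_cons.1 hs).2 fun z hz => h z (List.mem_cons_of_mem f hz)

lemma imp_walk_bb (τ : Fin n → Bool) (d e : Fin n) (F : List (Fin n)) (x : Fin n → Bool)
    (hs : (d :: e :: F).Nodup) (hd : x d = τ d) (he : x e = τ e) :
    imp τ .walk (d :: e :: F) x = insert d (imp τ .walk F x) := by
  have hde : d ≠ e := fun h => (List.nodup_cons.1 hs).1 (h ▸ List.mem_cons_self)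
  have hdF : d ∉ F := fun h => (List.nodup_cons.1 hs).1 (List.mem_cons_of_mem e h)
  have heF : e ∉ F := (List.nodup_cons.1 (List.nodup_cons.1 hs).2).1
  unfold imp
  ext z
  simp only [mem_filter, List.mem_toFinset, List.mem_cons, mem_insert]
  by_cases hz : z = d
  · subst hz
    have : x z = cm τ .walk (z :: e :: F) z x := by rw [cm, if_pos rfl, hd]
    simp [this]
  · by_cases hz2 : z = e
    · subst hz2
      have : ¬ x z = cm τ .walk (d :: z :: F) z x := by
        rw [cm, if_neg hz, if_pos rfl, if_pos hd, he]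
        cases τ z <;> simp
      simp [this, hz, heF]
    · rw [cm, if_neg hz, if_neg hz2, if_neg (fun h => h.1 hd)]
      simp [hz, hz2]

lemma imp_walk_ab (τ : Fin n → Bool) (d e : Fin n) (F : List (Fin n)) (x : Fin n → Bool)
    (hs : (d :: e :: F).Nodup) (hd : x d = !τ d) (he : x e = τ e) :
    imp τ .walk (d :: e :: F) x = insert e (imp τ .reset F x) := by
  have hde : d ≠ e := fun h => (List.nodup_cons.1 hs).1 (h ▸ List.mem_cons_self)
  have hdF : d ∉ F := fun h => (List.nodup_cons.1 hs).1 (List.mem_cons_of_mem e h)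
  have heF : e ∉ F := (List.nodup_cons.1 (List.nodup_cons.1 hs).2).1
  have hdn : ¬ x d = τ d := by rw [hd]; cases τ d <;> simp
  unfold imp
  ext z
  simp only [mem_filter, List.mem_toFinset, List.mem_cons, mem_insert]
  by_cases hz : z = d
  · subst hz
    have : ¬ x z = cm τ .walk (z :: e :: F) z x := by rw [cm, if_pos rfl]; exact hdn
    simp [this, hde, hdF]
  · by_cases hz2 : z = e
    · subst hz2
      have : x z = cm τ .walk (d :: z :: F) z x := by
        rw [cm, if_neg hz, if_pos rfl, if_neg hdn, he]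
      simp [this]
    · rw [cm, if_neg hz, if_neg hz2, if_pos ⟨hdn, he⟩]
      simp [hz, hz2]

lemma imp_walk_aa (τ : Fin n → Bool) (d e : Fin n) (F : List (Fin n)) (x : Fin n → Bool)
    (hs : (d :: e :: F).Nodup) (hd : x d = !τ d) (he : x e = !τ e) :
    imp τ .walk (d :: e :: F) x = imp τ .walk F x := by
  have hde : d ≠ e := fun h => (List.nodup_cons.1 hs).1 (h ▸ List.mem_cons_self)
  have hdF : d ∉ F := fun h => (List.nodup_cons.1 hs).1 (List.mem_cons_of_mem e h)
  have heF : e ∉ F := (List.nodup_cons.1 (List.nodup_cons.1 hs).2).1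
  have hdn : ¬ x d = τ d := by rw [hd]; cases τ d <;> simp
  have hen : ¬ x e = τ e := by rw [he]; cases τ e <;> simp
  unfold imp
  ext z
  simp only [mem_filter, List.mem_toFinset, List.mem_cons]
  by_cases hz : z = d
  · subst hz
    have : ¬ x z = cm τ .walk (z :: e :: F) z x := by rw [cm, if_pos rfl]; exact hdn
    simp [this, hdF]
  · by_cases hz2 : z = e
    · subst hz2
      have : ¬ x z = cm τ .walk (d :: z :: F) z x := by
        rw [cm, if_neg hz, if_pos rfl, if_neg hdn]; exact hen
      simp [this, heF]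
    · rw [cm, if_neg hz, if_neg hz2, if_neg (fun h => hen h.2)]
      simp [hz, hz2]

lemma imp_walk_single (τ : Fin n → Bool) (d : Fin n) (x : Fin n → Bool) (hd : x d = τ d) :
    imp τ .walk [d] x = {d} := by
  unfold imp
  ext z
  simp only [mem_filter, List.mem_toFinset, List.mem_singleton, mem_singleton]
  constructor
  · exact fun h => h.1
  · rintro rfl
    exact ⟨rfl, by rw [cm, hd]⟩

lemma imp_walk_a (τ : Fin n → Bool) : ∀ (s : List (Fin n)), s.Nodup → ∀ x : Fin n → Bool,
    (∀ z ∈ s, x z = !τ z) → imp τ .walk s x = ∅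
  | [], _, x, _ => imp_nil τ _ x
  | [d], _, x, h => by
    unfold imp
    rw [filter_eq_empty_iff]
    intro z hz
    have h1 := h z (List.mem_toFinset.1 hz)
    rw [cm, h1]
    cases τ z <;> simp
  | d :: e :: F, hs, x, h => by
    rw [imp_walk_aa τ d e F x hs (h d (by simp)) (h e (by simp))]
    exact imp_walk_a τ F (List.nodup_cons.1 (List.nodup_cons.1 hs).2).2 x
      fun z hz => h z (by simp [hz])

/-- one step: the improving direction `y` of lowest position is taken; all others wait -/
def OStep (τ : Fin n → Bool) (pos : Fin n → ℕ) (I : (Fin n → Bool) → Finset (Fin n))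
    (x x' : Fin n → Bool) : Prop :=
  ∃ y ∈ I x, (∀ z ∈ I x, z ≠ y → pos y < pos z ∧ x z = τ z) ∧ x' = flip x y

/-- walks -/
def OWalk (τ : Fin n → Bool) (pos : Fin n → ℕ) (I : (Fin n → Bool) → Finset (Fin n)) :
    ℕ → (Fin n → Bool) → (Fin n → Bool) → Prop
  | 0, x, x' => x = x'
  | L + 1, x, x' => ∃ x'', OStep τ pos I x x'' ∧ OWalk τ pos I L x'' x'

lemma OWalk.trans {τ : Fin n → Bool} {pos : Fin n → ℕ} {I : (Fin n → Bool) → Finset (Fin n)}
    {L L' : ℕ} {x y z : Fin n → Bool} (h : OWalk τ pos I L x y) (h' : OWalk τ pos I L' y z) :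
    OWalk τ pos I (L + L') x z := by
  induction L generalizing x with
  | zero =>
    have h1 : x = y := h
    subst h1
    rwa [zero_add]
  | succ L ih =>
    obtain ⟨x', h1, h2⟩ := h
    rw [show L + 1 + L' = (L + L') + 1 by ring]
    exact ⟨x', h1, ih h2⟩

lemma OWalk.one {τ : Fin n → Bool} {pos : Fin n → ℕ} {I : (Fin n → Bool) → Finset (Fin n)}
    {x y : Fin n → Bool} (h : OStep τ pos I x y) : OWalk τ pos I 1 x y := ⟨y, h, rfl⟩

/-- resetting -/
lemma owalk_reset (τ : Fin n → Bool) (pos : Fin n → ℕ) (F : List (Fin n)) (hF : F.Nodup)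
    (I : (Fin n → Bool) → Finset (Fin n)) (C : Finset (Fin n)) (x : Fin n → Bool)
    (hCF : ∀ i ∈ C, ∀ f ∈ F, pos f < pos i) (hC : ∀ i ∈ C, x i = τ i)
    (hI : ∀ y : Fin n → Bool, (∀ i, i ∉ F → y i = x i) → I y = C ∪ imp τ .reset F y)
    (hx : ∀ i ∈ F, x i = !τ i) :
    ∃ x' : Fin n → Bool, OWalk τ pos I F.length x x' ∧ (∀ i, i ∉ F → x' i = x i) ∧
      ∀ i ∈ F, x' i = τ i := by
  induction F generalizing x with
  | nil => exact ⟨x, rfl, fun _ _ => rfl, by simp⟩
  | cons f F ih =>
    have hfF := (List.nodup_cons.1 hF).1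
    have hxf := hx f List.mem_cons_self
    have hIx : I x = insert f C := by
      rw [hI x fun _ _ => rfl, imp_reset_cons_a τ f F x hfF hxf,
        imp_down_a τ F x fun z hz => hx z (List.mem_cons_of_mem f hz)]
      ext z; simp
    have hfC : f ∉ C := fun h => absurd (hCF f h f List.mem_cons_self) (lt_irrefl _)
    have h1 : OStep τ pos I x (flip x f) := by
      refine ⟨f, by rw [hIx]; exact mem_insert_self f C, ?_, rfl⟩
      intro z hz hzf
      rw [hIx] at hz
      have hz2 := (mem_insert.1 hz).resolve_left hzf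
      exact ⟨hCF z hz2 f List.mem_cons_self, hC z hz2⟩
    obtain ⟨x', h2, h3, h4⟩ := ih (List.nodup_cons.1 hF).2 (flip x f)
      (fun i hi g hg => hCF i hi g (List.mem_cons_of_mem f hg))
      (fun i hi => by
        have hif : i ≠ f := fun h => hfC (h ▸ hi)
        rw [flip_ne x hif, hC i hi])
      (by
        intro y hy
        have hyf : y f = τ f := by
          rw [hy f hfF, flip_self, hxf]; simp
        rw [hI y ?_, imp_reset_cons_b τ f F y hfF hyf]
        intro i hi
        have hif : i ≠ f := fun h => hi (h ▸ List.mem_cons_self)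
        rw [hy i fun h => hi (List.mem_cons_of_mem f h), flip_ne x hif])
      (fun i hi => by
        have hif : i ≠ f := fun h => hfF (h ▸ hi)
        rw [flip_ne x hif, hx i (List.mem_cons_of_mem f hi)])
    refine ⟨x', ⟨flip x f, h1, h2⟩, ?_, ?_⟩
    · intro i hi
      have hif : i ≠ f := fun h => hi (h ▸ List.mem_cons_self)
      rw [h3 i fun h => hi (List.mem_cons_of_mem f h), flip_ne x hif]
    · intro i hi
      rcases List.mem_cons.1 hi with h | h
      · subst h
        rw [h3 i hfF, flip_self, hxf]; simp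
      · exact h4 i h

/-- the length of the walk -/
def Tlen : ℕ → ℕ
  | 0 => 0
  | 1 => 1
  | m + 2 => 2 * Tlen m + m + 2

/-- the main walk -/
lemma owalk_walk (τ : Fin n → Bool) (pos : Fin n → ℕ) : ∀ (F : List (Fin n)), F.Nodup →
    F.Pairwise (fun a b => pos b < pos a) →
    ∀ (I : (Fin n → Bool) → Finset (Fin n)) (C : Finset (Fin n)) (x : Fin n → Bool),
    (∀ i ∈ C, ∀ f ∈ F, pos f < pos i) → (∀ i ∈ C, x i = τ i) →
    (∀ y : Fin n → Bool, (∀ i, i ∉ F → y i = x i) → I y = C ∪ imp τ .walk F y) →
    (∀ i ∈ F, x i = τ i) →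
    ∃ x' : Fin n → Bool, OWalk τ pos I (Tlen F.length) x x' ∧ (∀ i, i ∉ F → x' i = x i) ∧
      ∀ i ∈ F, x' i = !τ i
  | [], _, _, I, C, x, _, _, _, _ => ⟨x, rfl, fun _ _ => rfl, by simp⟩
  | [d], _, _, I, C, x, hCF, hC, hI, hx => by
    have hxd := hx d List.mem_cons_self
    have hIx : I x = insert d C := by
      rw [hI x fun _ _ => rfl, imp_walk_single τ d x hxd]
      ext z; simp
    refine ⟨flip x d, OWalk.one ⟨d, by rw [hIx]; exact mem_insert_self d C, ?_, rfl⟩, ?_, ?_⟩
    · intro z hz hzd
      rw [hIx] at hz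
      have hz2 := (mem_insert.1 hz).resolve_left hzd
      exact ⟨hCF z hz2 d List.mem_cons_self, hC z hz2⟩
    · intro i hi
      exact flip_ne x fun h => hi (h ▸ List.mem_cons_self)
    · intro i hi
      rw [List.mem_singleton] at hi
      subst hi
      rw [flip_self, hxd]
  | d :: e :: F, hF, hP, I, C, x, hCF, hC, hI, hx => by
    have hde : d ≠ e := fun h => (List.nodup_cons.1 hF).1 (h ▸ List.mem_cons_self)
    have hdF : d ∉ F := fun h => (List.nodup_cons.1 hF).1 (List.mem_cons_of_mem e h)
    have heF : e ∉ F := (List.nodup_cons.1 (List.nodup_cons.1 hF).2).1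
    have hFF : F.Nodup := (List.nodup_cons.1 (List.nodup_cons.1 hF).2).2
    have hPd := (List.pairwise_cons.1 hP).1
    have hPe := (List.pairwise_cons.1 (List.pairwise_cons.1 hP).2).1
    have hPF := (List.pairwise_cons.1 (List.pairwise_cons.1 hP).2).2
    have hxd := hx d (by simp)
    have hxe := hx e (by simp)
    have hdC : d ∉ C := fun h => absurd (hCF d h d (by simp)) (lt_irrefl _)
    have heC : e ∉ C := fun h => absurd (hCF e h e (by simp)) (lt_irrefl _)
    have hCFF : ∀ i ∈ C, i ∉ F := fun i hi h =>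
      absurd (hCF i hi i (by simp [h])) (lt_irrefl _)
    -- phase 1
    obtain ⟨x₁, w1, a1, b1⟩ := owalk_walk τ pos F hFF hPF I (insert d C) x
      (fun i hi f hf => by
        rcases mem_insert.1 hi with h | h
        · rw [h]; exact hPd f (List.mem_cons_of_mem e hf)
        · exact hCF i h f (by simp [hf]))
      (fun i hi => by
        rcases mem_insert.1 hi with h | h
        · rw [h]; exact hxd
        · exact hC i h)
      (fun y hy => by
        rw [hI y fun i hi => hy i fun h => hi (by simp [h]),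
          imp_walk_bb τ d e F y hF (by rw [hy d hdF, hxd]) (by rw [hy e heF, hxe])]
        ext z; simp only [mem_union, mem_insert]; tauto)
      (fun i hi => hx i (by simp [hi]))
    have hx1d : x₁ d = τ d := by rw [a1 d hdF, hxd]
    have hx1e : x₁ e = τ e := by rw [a1 e heF, hxe]
    have hx1C : ∀ i ∈ C, x₁ i = τ i := fun i hi => by rw [a1 i (hCFF i hi), hC i hi]
    have a1' : ∀ i, i ∉ d :: e :: F → x₁ i = x i := fun i hi => a1 i fun h => hi (by simp [h])
    -- phase 2
    have hI1 : I x₁ = insert d C := by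
      rw [hI x₁ a1', imp_walk_bb τ d e F x₁ hF hx1d hx1e, imp_walk_a τ F hFF x₁ b1]
      ext z; simp
    have s2 : OStep τ pos I x₁ (flip x₁ d) := by
      refine ⟨d, by rw [hI1]; exact mem_insert_self d C, ?_, rfl⟩
      intro z hz hzd
      rw [hI1] at hz
      have hz2 := (mem_insert.1 hz).resolve_left hzd
      exact ⟨hCF z hz2 d (by simp), hx1C z hz2⟩
    set x₂ := flip x₁ d with hx2
    have hx2d : x₂ d = !τ d := by rw [hx2, flip_self, hx1d]
    have hx2n : ∀ i, i ≠ d → x₂ i = x₁ i := fun i hi => flip_ne x₁ hi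
    have hx2e : x₂ e = τ e := by rw [hx2n e (Ne.symm hde), hx1e]
    have hx2C : ∀ i ∈ C, x₂ i = τ i := fun i hi => by
      rw [hx2n i fun h => hdC (h ▸ hi), hx1C i hi]
    have a2' : ∀ i, i ∉ d :: e :: F → x₂ i = x i := fun i hi => by
      rw [hx2n i fun h => hi (by simp [h]), a1' i hi]
    -- phase 3
    obtain ⟨x₃, w3, a3, b3⟩ := owalk_reset τ pos F hFF I (insert e C) x₂
      (fun i hi f hf => by
        rcases mem_insert.1 hi with h | h
        · rw [h]; exact hPe f hf
        · exact hCF i h f (by simp [hf]))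
      (fun i hi => by
        rcases mem_insert.1 hi with h | h
        · rw [h]; exact hx2e
        · exact hx2C i h)
      (fun y hy => by
        rw [hI y fun i hi => by rw [hy i fun h => hi (by simp [h]), a2' i hi],
          imp_walk_ab τ d e F y hF (by rw [hy d hdF, hx2d]) (by rw [hy e heF, hx2e])]
        ext z; simp only [mem_union, mem_insert]; tauto)
      (fun i hi => by rw [hx2n i fun h => hdF (h ▸ hi), b1 i hi])
    have hx3d : x₃ d = !τ d := by rw [a3 d hdF, hx2d]
    have hx3e : x₃ e = τ e := by rw [a3 e heF, hx2e]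
    have hx3C : ∀ i ∈ C, x₃ i = τ i := fun i hi => by rw [a3 i (hCFF i hi), hx2C i hi]
    have a3' : ∀ i, i ∉ d :: e :: F → x₃ i = x i := fun i hi => by
      rw [a3 i fun h => hi (by simp [h]), a2' i hi]
    -- phase 4
    have hI3 : I x₃ = insert e C := by
      rw [hI x₃ a3', imp_walk_ab τ d e F x₃ hF hx3d hx3e, imp_reset_b τ F hFF x₃ b3]
      ext z; simp
    have s4 : OStep τ pos I x₃ (flip x₃ e) := by
      refine ⟨e, by rw [hI3]; exact mem_insert_self e C, ?_, rfl⟩
      intro z hz hze
      rw [hI3] at hz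
      have hz2 := (mem_insert.1 hz).resolve_left hze
      exact ⟨hCF z hz2 e (by simp), hx3C z hz2⟩
    set x₄ := flip x₃ e with hx4
    have hx4e : x₄ e = !τ e := by rw [hx4, flip_self, hx3e]
    have hx4n : ∀ i, i ≠ e → x₄ i = x₃ i := fun i hi => flip_ne x₃ hi
    have hx4d : x₄ d = !τ d := by rw [hx4n d hde, hx3d]
    have hx4C : ∀ i ∈ C, x₄ i = τ i := fun i hi => by
      rw [hx4n i fun h => heC (h ▸ hi), hx3C i hi]
    have a4' : ∀ i, i ∉ d :: e :: F → x₄ i = x i := fun i hi => by
      rw [hx4n i fun h => hi (by simp [h]), a3' i hi]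
    -- phase 5
    obtain ⟨x₅, w5, a5, b5⟩ := owalk_walk τ pos F hFF hPF I C x₄
      (fun i hi f hf => hCF i hi f (by simp [hf]))
      hx4C
      (fun y hy => by
        rw [hI y fun i hi => by rw [hy i fun h => hi (by simp [h]), a4' i hi],
          imp_walk_aa τ d e F y hF (by rw [hy d hdF, hx4d]) (by rw [hy e heF, hx4e])])
      (fun i hi => by rw [hx4n i fun h => heF (h ▸ hi), b3 i hi])
    refine ⟨x₅, ?_, ?_, ?_⟩
    · have := (((w1.trans (OWalk.one s2)).trans w3).trans (OWalk.one s4)).trans w5
      rw [show Tlen (d :: e :: F).length = Tlen F.length + 1 + F.length + 1 + Tlen F.length by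
        simp only [List.length_cons, Tlen]; ring]
      exact this
    · intro i hi
      rw [a5 i fun h => hi (by simp [h]), a4' i hi]
    · intro i hi
      rcases List.mem_cons.1 hi with h | h
      · rw [h, a5 d hdF, hx4d]
      · rcases List.mem_cons.1 h with h | h
        · rw [h, a5 e heF, hx4e]
        · exact b5 i h

lemma Tlen_ge (m : ℕ) : 2 ^ m ≤ (Tlen m + 1) ^ 2 := by
  induction m using Tlen.induct with
  | case1 => simp [Tlen]
  | case2 => simp [Tlen]
  | case3 m ih =>
    show 2 ^ (m + 2) ≤ (Tlen (m + 2) + 1) ^ 2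
    rw [Tlen, pow_add]
    have : (2 * (Tlen m + 1)) ^ 2 ≤ (2 * Tlen m + m + 2 + 1) ^ 2 :=
      Nat.pow_le_pow_left (by omega) 2
    calc 2 ^ m * 2 ^ 2 ≤ (Tlen m + 1) ^ 2 * 2 ^ 2 := Nat.mul_le_mul_right _ ih
      _ = (2 * (Tlen m + 1)) ^ 2 := by ring
      _ ≤ _ := this

end Pool.Agent.H454R3
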