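import Pool.Agent.H454R3.Biased
set_option autoImplicit false

/-!
# Popular elements and steering
-/

namespace Pool.Agent.H454R3

open Finset

variable {α : Type*} [DecidableEq α]

set_option linter.unusedSectionVars false

lemma Ex_ind_mem (p : ℝ) {N : Finset α} {x : α} (hx : x ∈ N) (r : Finset α → α) :
    Pr p N (fun S => x ∈ S ∧ r S = x) = p * Pr p (N.erase x) (fun S => r (insert x S) = x) := by
  conv_lhs => rw [← insert_erase hx]
  rw [Pr_insert (notMem_erase x N)]
  have h1 : Pr p (N.erase x) (fun S => x ∈ S ∧ r S = x) = 0 := by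
    unfold Pr
    refine (Ex_congr fun S hS => ?_).trans (Ex_const p (N.erase x) 0)
    rw [if_neg]
    intro h
    exact notMem_erase x N (hS h.1)
  rw [h1]
  simp

lemma Pr_nonempty (p : ℝ) (N : Finset α) :
    Pr p N (fun S => S.Nonempty) = 1 - (1 - p) ^ N.card := by
  induction N using Finset.induction_on with
  | empty => simp [Pr, Ex_empty]
  | insert x N hx ih =>
    rw [Pr_insert hx, ih, card_insert_of_notMem hx]
    have : Pr p N (fun S => (insert x S).Nonempty) = 1 := by
      unfold Pr
      refine (Ex_congr fun S _ => ?_).trans (Ex_const p N 1)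
      rw [if_pos (insert_nonempty x S)]
    rw [this]
    ring

/-- the total popularity -/
lemma sum_pop (p : ℝ) (N : Finset α) (r : Finset α → α)
    (hr : ∀ S : Finset α, S.Nonempty → r S ∈ S) :
    ∑ x ∈ N, p * Pr p (N.erase x) (fun S => r (insert x S) = x) = 1 - (1 - p) ^ N.card := by
  classical
  rw [← Pr_nonempty p N]
  have h1 : ∑ x ∈ N, p * Pr p (N.erase x) (fun S => r (insert x S) = x) =
      ∑ x ∈ N, Pr p N (fun S => x ∈ S ∧ r S = x) :=
    sum_congr rfl fun x hx => (Ex_ind_mem p hx r).symm
  rw [h1]
  unfold Pr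
  rw [← Ex_sum]
  refine Ex_congr fun S hS => ?_
  by_cases hne : S.Nonempty
  · rw [if_pos hne]
    have h2 := hr S hne
    rw [sum_eq_single_of_mem (r S) (hS h2)]
    · rw [if_pos ⟨h2, rfl⟩]
    · intro y _ hy
      rw [if_neg]
      rintro ⟨_, h⟩
      exact hy h.symm
  · rw [if_neg hne]
    apply sum_eq_zero
    intro y _
    rw [if_neg]
    rintro ⟨h, _⟩
    exact hne ⟨y, h⟩

/-- a popular element -/
lemma exists_popular (N : Finset α) (hN : N.Nonempty) (r : Finset α → α)
    (hr : ∀ S : Finset α, S.Nonempty → r S ∈ S) :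
    ∃ x ∈ N, 1 / (N.card : ℝ) ≤ Pr (1 / 2) (N.erase x) (fun S => r (insert x S) = x) := by
  by_contra h
  push Not at h
  have hc : (0 : ℝ) < N.card := by exact_mod_cast hN.card_pos
  have h1 := sum_pop (1 / 2 : ℝ) N r hr
  have h2 : ∑ x ∈ N, (1 / 2 : ℝ) * Pr (1 / 2) (N.erase x) (fun S => r (insert x S) = x) <
      ∑ x ∈ N, (1 / 2 : ℝ) * (1 / (N.card : ℝ)) := by
    apply sum_lt_sum_of_nonempty hN
    intro x hx
    have := h x hx
    linarith
  rw [h1, sum_const, nsmul_eq_mul] at h2
  have h3 : (1 - 1 / 2 : ℝ) ^ N.card ≤ (1 / 2) ^ 1 := by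
    rw [show (1 - 1 / 2 : ℝ) = 1 / 2 by norm_num]
    exact pow_le_pow_of_le_one (by norm_num) (by norm_num) hN.card_pos
  have h4 : (N.card : ℝ) * (1 / 2 * (1 / N.card)) = 1 / 2 := by field_simp
  rw [h4] at h2
  linarith

/-- the rule `r` picks the element `x` on a family of sets which shatters `A` -/
def Q (r : Finset α → α) (x : α) (l : List α) (A : Finset α) : Prop :=
  Shat l.toFinset (fun S => r (insert x S) = x) A

/-- every element of the list is popular among the sets of later elements -/
def Lay (r : Finset α → α) (k : ℕ) : List α → Prop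
  | [] => True
  | x :: l => x ∉ l ∧ (1 / 2 : ℝ) ^ k ≤ Pr (1 / 2) l.toFinset (fun S => r (insert x S) = x) ∧
      Lay r k l

lemma exists_lay (r : Finset α → α) (hr : ∀ S : Finset α, S.Nonempty → r S ∈ S) (k : ℕ)
    (N : Finset α) (hN : N.card ≤ 2 ^ k) : ∃ l : List α, l.toFinset = N ∧ Lay r k l := by
  induction hn : N.card generalizing N with
  | zero =>
    rw [card_eq_zero] at hn
    exact ⟨[], by simp [hn], trivial⟩
  | succ n ih =>
    have hne : N.Nonempty := by
      rw [← card_pos]; omega
    obtain ⟨x, hx, h⟩ := exists_popular N hne r hr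
    have h1 := card_erase_of_mem hx
    obtain ⟨l, hl, hL⟩ := ih (N.erase x) (by omega) (by omega)
    refine ⟨x :: l, ?_, ?_, ?_, hL⟩
    · rw [List.toFinset_cons, hl, insert_erase hx]
    · intro h2
      have : x ∈ l.toFinset := List.mem_toFinset.2 h2
      rw [hl] at this
      exact notMem_erase x N this
    · rw [hl]
      refine le_trans ?_ h
      rw [one_div_pow]
      apply one_div_le_one_div_of_le
      · exact_mod_cast hne.card_pos
      · exact_mod_cast hN

open Classical in
/-- the elements of `M` which can be steered to -/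
noncomputable def sel (r : Finset α → α) (M : Finset α) : List α → List α
  | [] => []
  | x :: l => if x ∈ M ∧ Q r x l (M ∩ l.toFinset) then x :: sel r M l else sel r M l

lemma sel_subset (r : Finset α → α) (M : Finset α) (l : List α) :
    ∀ x ∈ sel r M l, x ∈ M ∧ x ∈ l := by
  induction l with
  | nil => simp [sel]
  | cons y l ih =>
    intro x hx
    unfold sel at hx
    split_ifs at hx with h
    · rcases List.mem_cons.1 hx with h1 | h1
      · subst h1
        exact ⟨h.1, List.mem_cons_self⟩
      · exact ⟨(ih x h1).1, List.mem_cons_of_mem y (ih x h1).2⟩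
    · exact ⟨(ih x hx).1, List.mem_cons_of_mem y (ih x hx).2⟩

lemma sel_congr (r : Finset α → α) (M M' : Finset α) (l : List α)
    (h : M ∩ l.toFinset = M' ∩ l.toFinset) : sel r M l = sel r M' l := by
  induction l with
  | nil => rfl
  | cons y l ih =>
    have h1 : ∀ z ∈ y :: l, (z ∈ M ↔ z ∈ M') := by
      intro z hz
      have hz' : z ∈ (y :: l).toFinset := List.mem_toFinset.2 hz
      constructor
      · intro h2
        have : z ∈ M ∩ (y :: l).toFinset := mem_inter.2 ⟨h2, hz'⟩
        rw [h] at this
        exact (mem_inter.1 this).1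
      · intro h2
        have : z ∈ M' ∩ (y :: l).toFinset := mem_inter.2 ⟨h2, hz'⟩
        rw [← h] at this
        exact (mem_inter.1 this).1
    have h2 : M ∩ l.toFinset = M' ∩ l.toFinset := by
      ext z
      simp only [mem_inter, List.mem_toFinset]
      constructor
      · rintro ⟨a, b⟩
        exact ⟨(h1 z (List.mem_cons_of_mem y b)).1 a, b⟩
      · rintro ⟨a, b⟩
        exact ⟨(h1 z (List.mem_cons_of_mem y b)).2 a, b⟩
    have h3 := h1 y List.mem_cons_self
    have h4 : (y ∈ M ∧ Q r y l (M ∩ l.toFinset)) ↔ (y ∈ M' ∧ Q r y l (M' ∩ l.toFinset)) := by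
      rw [h2, h3]
    unfold sel
    by_cases hc : y ∈ M ∧ Q r y l (M ∩ l.toFinset)
    · rw [if_pos hc, if_pos (h4.1 hc), ih h2]
    · rw [if_neg hc, if_neg fun h => hc (h4.2 h), ih h2]

lemma sel_nodup (r : Finset α → α) (M : Finset α) {k : ℕ} (l : List α) (hl : Lay r k l) :
    (sel r M l).Nodup := by
  induction l with
  | nil => simp [sel]
  | cons y l ih =>
    unfold sel
    split_ifs with h
    · refine List.nodup_cons.2 ⟨fun h1 => hl.1 (sel_subset r M l y h1).2, ih hl.2.2⟩
    · exact ih hl.2.2

/-- the expected number of elements which can be steered to -/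
lemma Ex_sel (r : Finset α → α) {k : ℕ} (hk : 1 ≤ k) (l : List α) (hl : Lay r k l) :
    (l.length : ℝ) * (1 / 2 / k * (1 / 2)) ≤
      Ex (1 / 2 / k) l.toFinset (fun M => ((sel r M l).length : ℝ)) := by
  have hk' : (1 : ℝ) ≤ k := by exact_mod_cast hk
  have hq0 : (0 : ℝ) ≤ 1 / 2 / k := by positivity
  have hq1 : (1 / 2 : ℝ) / k ≤ 1 := by
    rw [div_le_one (by linarith)]
    linarith
  induction l with
  | nil => simp [Ex_empty, sel]
  | cons x l ih =>
    have hx : x ∉ l.toFinset := fun h => hl.1 (List.mem_toFinset.1 h)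
    rw [List.toFinset_cons, Ex_insert hx]
    have e1 : Ex (1 / 2 / k) l.toFinset (fun M => ((sel r M (x :: l)).length : ℝ)) =
        Ex (1 / 2 / k) l.toFinset (fun M => ((sel r M l).length : ℝ)) := by
      refine Ex_congr fun S hS => ?_
      have : ¬ (x ∈ S ∧ Q r x l (S ∩ l.toFinset)) := fun h => hx (hS h.1)
      simp only [sel, this, if_false]
    have e2 : Ex (1 / 2 / k) l.toFinset (fun M => ((sel r (insert x M) (x :: l)).length : ℝ)) =
        Ex (1 / 2 / k) l.toFinset (fun M => ((sel r M l).length : ℝ)) +
        Pr (1 / 2 / k) l.toFinset (Q r x l) := by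
      unfold Pr
      rw [← Ex_add]
      refine Ex_congr fun S hS => ?_
      have h1 : insert x S ∩ l.toFinset = S := by
        rw [insert_inter_of_notMem hx, inter_eq_left.2 hS]
      have h2 : sel r (insert x S) l = sel r S l := by
        apply sel_congr
        rw [h1, inter_eq_left.2 hS]
      have h3 : x ∈ insert x S := mem_insert_self x S
      by_cases hQ : Q r x l S
      · simp only [sel, h1, h2, h3, hQ, and_self, if_true, List.length_cons]
        push_cast
        ring
      · simp only [sel, h1, h2, hQ, and_false, if_false, add_zero]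
    rw [e1, e2]
    have e3 : (1 / 2 : ℝ) ≤ Pr (1 / 2 / k) l.toFinset (Q r x l) :=
      shat_half (by norm_num) le_rfl hk l.toFinset _ hl.2.1
    have e4 := ih hl.2.2
    have e5 : (1 / 2 / k : ℝ) * (1 / 2) ≤ 1 / 2 / k * Pr (1 / 2 / k) l.toFinset (Q r x l) :=
      mul_le_mul_of_nonneg_left e3 hq0
    rw [List.length_cons]
    push_cast
    linarith

/-- `y` is the first member of the list which belongs to `D` -/
def First : List α → Finset α → α → Prop
  | [], _, _ => False
  | x :: l, D, y => if x ∈ D then y = x else First l D y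

/-- every set of selected elements can be completed to a set on which the rule picks the first
element -/
lemma steer (r : Finset α → α) (M : Finset α) {k : ℕ} (l : List α) (hl : Lay r k l)
    (D : Finset α) (hD : D ⊆ (sel r M l).toFinset) (hne : D.Nonempty) :
    ∃ S ⊆ l.toFinset, S ∩ (sel r M l).toFinset = D ∧ First (sel r M l) D (r S) := by
  induction l with
  | nil =>
    exfalso
    obtain ⟨y, hy⟩ := hne
    have := hD hy
    simp [sel] at this
  | cons x l ih =>
    have hxl : x ∉ l.toFinset := fun h => hl.1 (List.mem_toFinset.1 h)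
    by_cases h : x ∈ M ∧ Q r x l (M ∩ l.toFinset)
    · have hs : sel r M (x :: l) = x :: sel r M l := by simp only [sel, h, and_self, if_true]
      rw [hs, List.toFinset_cons] at hD
      rw [hs]
      simp only [List.toFinset_cons]
      have hsub : (sel r M l).toFinset ⊆ M ∩ l.toFinset := by
        intro y hy
        have := sel_subset r M l y (List.mem_toFinset.1 hy)
        exact mem_inter.2 ⟨this.1, List.mem_toFinset.2 this.2⟩
      by_cases hxD : x ∈ D
      · obtain ⟨S, hS, hrS, hSA⟩ := h.2 (D.erase x) (by
          intro y hy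
          rcases mem_insert.1 (hD (mem_of_mem_erase hy)) with h1 | h1
          · exact absurd h1 (ne_of_mem_erase hy)
          · exact hsub h1)
        refine ⟨insert x S, ?_, ?_, ?_⟩
        · exact insert_subset_insert x hS
        · rw [← insert_inter_distrib]
          have : S ∩ (sel r M l).toFinset = D.erase x := by
            ext y
            constructor
            · intro hy
              rw [← hSA]
              exact mem_inter.2 ⟨(mem_inter.1 hy).1, hsub (mem_inter.1 hy).2⟩
            · intro hy
              have h2 := hy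
              rw [← hSA] at h2
              refine mem_inter.2 ⟨(mem_inter.1 h2).1, ?_⟩
              rcases mem_insert.1 (hD (mem_of_mem_erase hy)) with h1 | h1
              · exact absurd h1 (ne_of_mem_erase hy)
              · exact h1
          rw [this, insert_erase hxD]
        · show if x ∈ D then _ else _
          rw [if_pos hxD, hrS]
      · have hD' : D ⊆ (sel r M l).toFinset := by
          intro y hy
          rcases mem_insert.1 (hD hy) with h1 | h1
          · rw [h1] at hy; exact absurd hy hxD
          · exact h1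
        obtain ⟨S, hS, hSD, hF⟩ := ih hl.2.2 hD'
        refine ⟨S, ?_, ?_, ?_⟩
        · exact hS.trans (subset_insert x _)
        · rw [inter_insert_of_notMem fun h => hxl (hS h), hSD]
        · show if x ∈ D then _ else _
          rw [if_neg hxD]
          exact hF
    · have hs : sel r M (x :: l) = sel r M l := by simp only [sel, h, if_false]
      rw [hs] at hD ⊢
      obtain ⟨S, hS, hSD, hF⟩ := ih hl.2.2 hD
      refine ⟨S, ?_, hSD, hF⟩
      rw [List.toFinset_cons]
      exact hS.trans (subset_insert x _)

/-- **Steering.** For every choice function `r` on `n ≤ 2 ^ k` elements there is a list of at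
least `n / (4 k)` elements such that each nonempty set `D` of members of the list is the trace
on the list of a set on which `r` picks the first member of `D`. -/
theorem exists_steering [Fintype α] (r : Finset α → α)
    (hr : ∀ S : Finset α, S.Nonempty → r S ∈ S) {k : ℕ} (hk : 1 ≤ k)
    (hn : Fintype.card α ≤ 2 ^ k) :
    ∃ t : List α, t.Nodup ∧ (Fintype.card α : ℝ) / (4 * k) ≤ t.length ∧
      ∀ D : Finset α, D ⊆ t.toFinset → D.Nonempty →
        ∃ S : Finset α, S ∩ t.toFinset = D ∧ First t D (r S) := by
  obtain ⟨l, hl, hL⟩ := exists_lay r hr k univ hn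
  have hk' : (1 : ℝ) ≤ k := by exact_mod_cast hk
  have hq0 : (0 : ℝ) ≤ 1 / 2 / k := by positivity
  have hq1 : (1 / 2 : ℝ) / k ≤ 1 := by
    rw [div_le_one (by linarith)]
    linarith
  obtain ⟨M, _, hM⟩ := exists_ge_Ex hq0 hq1 l.toFinset (fun M => ((sel r M l).length : ℝ))
  have h1 := (Ex_sel r hk l hL).trans hM
  have h2 : (Fintype.card α : ℝ) ≤ l.length := by
    have : l.toFinset.card ≤ l.length := List.toFinset_card_le l
    rw [hl, card_univ] at this
    exact_mod_cast this
  refine ⟨sel r M l, sel_nodup r M l hL, ?_, ?_⟩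
  · refine le_trans ?_ h1
    have h3 : (1 / 2 / k * (1 / 2) : ℝ) = 1 / (4 * k) := by
      field_simp
      norm_num
    rw [h3, div_eq_mul_one_div]
    exact mul_le_mul_of_nonneg_right h2 (by positivity)
  · intro D hD hne
    obtain ⟨S, _, h3, h4⟩ := steer r M l hL D hD hne
    exact ⟨S, h3, h4⟩

end Pool.Agent.H454R3
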